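import Pool.Agent.Lib.P5135r.Blow

set_option autoImplicit false
set_option linter.unusedSectionVars false
set_option linter.unusedFintypeInType false
set_option linter.unusedDecidableInType false

/-!
3-colourability as a comparison of independence numbers.
-/

namespace Pool.Agent.Lib.P5135r

open Pool.Agent.Lib.P5135a5

variable {W : Type} (F : SimpleGraph W) (z : W)

/-- disjoint triangles -/
def triGraph (W : Type) : SimpleGraph (W × Fin 3) where
  Adj x y := x ≠ y ∧ x.1 = y.1
  symm := ⟨fun _ _ h => ⟨h.1.symm, h.2.symm⟩⟩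
  loopless := ⟨fun _ h => h.1 rfl⟩

/-- the graph `F □ K_3` (one vertex for every pair of a vertex of `F` and a colour) -/
def colGraph : SimpleGraph (W × Fin 3) where
  Adj x y := x ≠ y ∧ (x.1 = y.1 ∨ (x.2 = y.2 ∧ F.Adj x.1 y.1))
  symm := ⟨fun _ _ h => ⟨h.1.symm, h.2.imp Eq.symm (fun h => ⟨h.1.symm, h.2.symm⟩)⟩⟩
  loopless := ⟨fun _ h => h.1 rfl⟩

/-- `F □ K_3` where `(z, 2)` is not joined to the other vertices `(z, c)` -/
def colGraph' : SimpleGraph (W × Fin 3) where
  Adj x y := x ≠ y ∧ ((x.1 = y.1 ∧ ¬ (x.1 = z ∧ (x.2 = 2 ∨ y.2 = 2))) ∨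
    (x.2 = y.2 ∧ F.Adj x.1 y.1))
  symm := ⟨by
    rintro x y ⟨h1, h2⟩
    refine ⟨h1.symm, ?_⟩
    rcases h2 with ⟨h2, h3⟩ | ⟨h2, h3⟩
    · left
      refine ⟨h2.symm, ?_⟩
      rintro ⟨h4, h5⟩
      exact h3 ⟨h2.trans h4, h5.symm⟩
    · exact Or.inr ⟨h2.symm, h3.symm⟩⟩
  loopless := ⟨fun _ h => h.1 rfl⟩

section

variable [Fintype W]

/-- `α` of disjoint triangles -/
theorem indepNum_tri : (triGraph W).indepNum = Fintype.card W := by
  classical
  apply le_antisymm
  · obtain ⟨I, hI, hIc⟩ := exists_indep_card (triGraph W)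
    rw [← hIc]
    have : (I.image Prod.fst).card = I.card := by
      refine Finset.card_image_of_injOn ?_
      intro x hx y hy hxy
      by_contra hne
      exact hI x hx y hy ⟨hne, hxy⟩
    rw [← this]
    exact Finset.card_le_univ _
  · have := indep_card_le_indepNum (triGraph W)
      ((Finset.univ : Finset W).image (fun w => (w, (0 : Fin 3)))) (by
        intro x hx y hy h
        obtain ⟨a, _, rfl⟩ := Finset.mem_image.1 hx
        obtain ⟨b, _, rfl⟩ := Finset.mem_image.1 hy
        exact h.1 (by rw [show a = b from h.2]))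
    rw [Finset.card_image_of_injective, Finset.card_univ] at this
    · exact this
    · intro a b h
      exact congrArg Prod.fst h

/-- an independent set of `|W|` vertices is a 3-colouring -/
theorem colorable_of_indep {I : Finset (W × Fin 3)}
    (hI : ∀ x ∈ I, ∀ y ∈ I, ¬ (colGraph F).Adj x y) (hc : Fintype.card W ≤ I.card) :
    F.Colorable 3 := by
  classical
  have hinj : (I.image Prod.fst).card = I.card := by
    refine Finset.card_image_of_injOn ?_
    intro x hx y hy hxy
    by_contra hne
    exact hI x hx y hy ⟨hne, Or.inl hxy⟩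
  have huniv : I.image Prod.fst = Finset.univ := by
    apply Finset.eq_univ_of_card
    have := Finset.card_le_univ (I.image Prod.fst)
    omega
  have hex : ∀ w : W, ∃ c : Fin 3, (w, c) ∈ I := by
    intro w
    have : w ∈ I.image Prod.fst := by rw [huniv]; exact Finset.mem_univ w
    obtain ⟨⟨a, c⟩, hx, rfl⟩ := Finset.mem_image.1 this
    exact ⟨c, hx⟩
  choose c hc' using hex
  refine ⟨SimpleGraph.Coloring.mk c ?_⟩
  intro v w hvw hcol
  refine hI _ (hc' v) _ (hc' w) ⟨?_, Or.inr ⟨hcol, hvw⟩⟩
  intro h
  exact hvw.ne (congrArg Prod.fst h)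

/-- `α(triangles) ≤ α(F □ K_3)` if and only if `F` is 3-colourable -/
theorem tri_le_col_iff : (triGraph W).indepNum ≤ (colGraph F).indepNum ↔ F.Colorable 3 := by
  classical
  rw [indepNum_tri]
  constructor
  · intro h
    obtain ⟨I, hI, hIc⟩ := exists_indep_card (colGraph F)
    exact colorable_of_indep F hI (by omega)
  · rintro ⟨c⟩
    have := indep_card_le_indepNum (colGraph F)
      ((Finset.univ : Finset W).image (fun w => (w, c w))) (by
        intro x hx y hy h
        obtain ⟨a, _, rfl⟩ := Finset.mem_image.1 hx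
        obtain ⟨b, _, rfl⟩ := Finset.mem_image.1 hy
        obtain ⟨h1, h2 | ⟨h2, h3⟩⟩ := h
        · exact h1 (by rw [show a = b from h2])
        · exact c.valid h3 h2)
    rw [Finset.card_image_of_injective, Finset.card_univ] at this
    · exact this
    · intro a b h
      exact congrArg Prod.fst h

/-- `α(F □ K_3 with (z, 2) freed) ≤ α(triangles)` if and only if `F` is not 3-colourable
(`z` an isolated vertex) -/
theorem col'_le_tri_iff (hz : ∀ w, ¬ F.Adj z w) :
    (colGraph' F z).indepNum ≤ (triGraph W).indepNum ↔ ¬ F.Colorable 3 := by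
  classical
  rw [indepNum_tri]
  constructor
  · rintro h ⟨c0⟩
    -- recolour `z` by 0
    let c : W → Fin 3 := fun w => if w = z then 0 else c0 w
    have hc : ∀ v w, F.Adj v w → c v ≠ c w := by
      intro v w hvw
      have hv : v ≠ z := by rintro rfl; exact hz w hvw
      have hw : w ≠ z := by rintro rfl; exact hz v hvw.symm
      simp only [c, if_neg hv, if_neg hw]
      exact c0.valid hvw
    have := indep_card_le_indepNum (colGraph' F z)
      (insert (z, 2) ((Finset.univ : Finset W).image (fun w => (w, c w)))) (by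
        have key : ∀ a, ¬ (colGraph' F z).Adj (z, 2) (a, c a) := by
          rintro a ⟨h1, ⟨h2, h3⟩ | ⟨h2, h3⟩⟩
          · exact h3 ⟨rfl, Or.inl rfl⟩
          · exact hz _ h3
        intro x hx y hy h
        rcases Finset.mem_insert.1 hx with hx' | hx' <;>
          rcases Finset.mem_insert.1 hy with hy' | hy'
        · rw [hx', hy'] at h; exact h.ne rfl
        · obtain ⟨b, _, rfl⟩ := Finset.mem_image.1 hy'
          rw [hx'] at h
          exact key b h
        · obtain ⟨a, _, rfl⟩ := Finset.mem_image.1 hx'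
          rw [hy'] at h
          exact key a h.symm
        · obtain ⟨a, _, rfl⟩ := Finset.mem_image.1 hx'
          obtain ⟨b, _, rfl⟩ := Finset.mem_image.1 hy'
          obtain ⟨h1, ⟨h2, _⟩ | ⟨h2, h3⟩⟩ := h
          · exact h1 (by rw [show a = b from h2])
          · exact hc _ _ h3 h2)
    rw [Finset.card_insert_of_notMem, Finset.card_image_of_injective, Finset.card_univ] at this
    · omega
    · intro a b h
      exact congrArg Prod.fst h
    · intro hmem
      obtain ⟨a, _, ha⟩ := Finset.mem_image.1 hmem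
      simp only [Prod.mk.injEq] at ha
      obtain ⟨rfl, ha⟩ := ha
      simp only [c, if_true] at ha
      exact absurd ha (by decide)
  · intro h
    by_contra hcon
    push Not at hcon
    apply h
    obtain ⟨I, hI, hIc⟩ := exists_indep_card (colGraph' F z)
    refine colorable_of_indep F (I := I.erase (z, 2)) ?_ ?_
    · rintro x hx y hy ⟨h1, h2⟩
      obtain ⟨hx1, hx2⟩ := Finset.mem_erase.1 hx
      obtain ⟨hy1, hy2⟩ := Finset.mem_erase.1 hy
      refine hI x hx2 y hy2 ⟨h1, ?_⟩
      rcases h2 with h2 | h2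
      · left
        refine ⟨h2, ?_⟩
        rintro ⟨h3, h4 | h4⟩
        · exact hx1 (Prod.ext h3 h4)
        · exact hy1 (Prod.ext (h2.symm.trans h3) h4)
      · exact Or.inr h2
    · have := Finset.pred_card_le_card_erase (s := I) (a := (z, 2))
      omega

end

end Pool.Agent.Lib.P5135r
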