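import Pool.Agent.Lib.P5135r.Blow

set_option autoImplicit false
set_option linter.unusedSectionVars false
set_option linter.unusedFintypeInType false
set_option linter.unusedDecidableInType false

/-!
The graphs `F1(G)`, `F2(G)` with `α(F1) = n² + im(G)`, `α(F2) = n² + Γ(G)`.
-/

namespace Pool.Agent.Lib.P5135r

open Pool.Agent.Lib.P5135a5

variable {V : Type} (G : SimpleGraph V)

/-- the vertex type: `((v, q), (p, j)), s)` -/
abbrev Tp (V : Type) := ((V × V) × (V × V)) × Fin 2

/-- Vertices of `F1` in use: `((v, q), (v, v), 1)` with `v q` an edge, and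
`((v, v), (v, j), 0)`. -/
def val1 (x : Tp V) : Prop :=
  (x.2 = 1 ∧ G.Adj x.1.1.1 x.1.1.2 ∧ x.1.2.1 = x.1.1.1 ∧ x.1.2.2 = x.1.1.1) ∨
    (x.2 = 0 ∧ x.1.1.2 = x.1.1.1 ∧ x.1.2.1 = x.1.1.1)

/-- the edges `v q` and `v' q'` meet or are joined by an edge -/
def near (v q v' q' : V) : Prop :=
  v = v' ∨ v = q' ∨ q = v' ∨ q = q' ∨ G.Adj v v' ∨ G.Adj v q' ∨ G.Adj q v' ∨ G.Adj q q'

theorem near_symm {v q v' q' : V} (h : near G v q v' q') : near G v' q' v q := by
  rcases h with h | h | h | h | h | h | h | h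
  · exact Or.inl h.symm
  · exact Or.inr (Or.inr (Or.inl h.symm))
  · exact Or.inr (Or.inl h.symm)
  · exact Or.inr (Or.inr (Or.inr (Or.inl h.symm)))
  · exact Or.inr (Or.inr (Or.inr (Or.inr (Or.inl h.symm))))
  · exact Or.inr (Or.inr (Or.inr (Or.inr (Or.inr (Or.inr (Or.inl h.symm))))))
  · exact Or.inr (Or.inr (Or.inr (Or.inr (Or.inr (Or.inl h.symm)))))
  · exact Or.inr (Or.inr (Or.inr (Or.inr (Or.inr (Or.inr (Or.inr h.symm))))))

/-- adjacency in `F1` of two distinct vertices -/
def f1Adj (x y : Tp V) : Prop :=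
  ¬ val1 G x ∨ ¬ val1 G y ∨ (x.2 = 1 ∧ y.2 = 1 ∧ near G x.1.1.1 x.1.1.2 y.1.1.1 y.1.1.2)

theorem f1Adj_symm {x y : Tp V} (h : f1Adj G x y) : f1Adj G y x := by
  rcases h with h | h | ⟨h1, h2, h3⟩
  · exact Or.inr (Or.inl h)
  · exact Or.inl h
  · exact Or.inr (Or.inr ⟨h2, h1, near_symm G h3⟩)

/-- The square of the line graph of `G` together with `n²` isolated vertices (and universal
vertices). -/
def f1Graph : SimpleGraph (Tp V) where
  Adj x y := x ≠ y ∧ f1Adj G x y
  symm := ⟨fun _ _ h => ⟨h.1.symm, f1Adj_symm G h.2⟩⟩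
  loopless := ⟨fun _ h => h.1 rfl⟩

/-- Vertices of `F2` in use: `v` is dominated by `q`; if `q = v` then `v` is in the set and `p` is
its private neighbour; copies `j`, one more of them if `q = v`. -/
def val2 (x : Tp V) : Prop :=
  (x.1.1.2 = x.1.1.1 ∨ G.Adj x.1.1.1 x.1.1.2) ∧
    (x.1.1.2 = x.1.1.1 → x.1.2.1 = x.1.1.1 ∨ G.Adj x.1.2.1 x.1.1.1) ∧
    (x.2 = 1 → x.1.1.2 = x.1.1.1 ∧ x.1.2.2 = x.1.1.1)

/-- the state `(q, p)` of `v` contradicts the state with dominator `q'` of `w` -/
def bad2 (v q p w q' : V) : Prop :=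
  (q = w ∧ q' ≠ w) ∨ (q = v ∧ q' = w ∧ (p = w ∨ G.Adj p w))

/-- adjacency in `F2` of two distinct vertices -/
def f2Adj (x y : Tp V) : Prop :=
  ¬ val2 G x ∨ ¬ val2 G y ∨
    (x.1.1.1 = y.1.1.1 ∧ (x.1.1.2 ≠ y.1.1.2 ∨ x.1.2.1 ≠ y.1.2.1)) ∨
    (x.1.1.1 ≠ y.1.1.1 ∧ (bad2 G x.1.1.1 x.1.1.2 x.1.2.1 y.1.1.1 y.1.1.2 ∨
      bad2 G y.1.1.1 y.1.1.2 y.1.2.1 x.1.1.1 x.1.1.2))

theorem f2Adj_symm {x y : Tp V} (h : f2Adj G x y) : f2Adj G y x := by
  rcases h with h | h | ⟨h1, h2⟩ | ⟨h1, h2⟩
  · exact Or.inr (Or.inl h)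
  · exact Or.inl h
  · exact Or.inr (Or.inr (Or.inl ⟨h1.symm, h2.imp Ne.symm Ne.symm⟩))
  · exact Or.inr (Or.inr (Or.inr ⟨Ne.symm h1, h2.symm⟩))

/-- The conflict graph of the states of minimal dominating sets. -/
def f2Graph : SimpleGraph (Tp V) where
  Adj x y := x ≠ y ∧ f2Adj G x y
  symm := ⟨fun _ _ h => ⟨h.1.symm, f2Adj_symm G h.2⟩⟩
  loopless := ⟨fun _ h => h.1 rfl⟩

section Finite

variable [Fintype V]

/-- `im(G) + n² ≤ α(F1)` -/
theorem le_f1 : Fintype.card V * Fintype.card V + inducedMatchingNum G ≤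
    (f1Graph G).indepNum := by
  classical
  obtain ⟨S, hS, hcard⟩ := exists_inducedMatchingNum G
  obtain ⟨C, hCS, _, hCI, hC2⟩ := exists_choice G S hS (fun _ => True)
    (fun _ _ _ _ _ => Or.inl trivial)
  -- partners
  have hp : ∀ v : V, ∃ w, v ∈ S → (w ∈ S ∧ G.Adj v w) ∧ ∀ z, z ∈ S ∧ G.Adj v z → z = w := by
    intro v
    by_cases hv : v ∈ S
    · obtain ⟨w, h1, h2⟩ := hS v hv
      exact ⟨w, fun _ => ⟨h1, h2⟩⟩
    · exact ⟨v, fun h => absurd h hv⟩
  choose π hπ using hp
  let e0 : V × V → Tp V := fun z => (((z.1, z.1), (z.1, z.2)), 0)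
  let e1 : V → Tp V := fun v => (((v, π v), (v, v)), 1)
  let I : Finset (Tp V) := (Finset.univ.image e0) ∪ (C.image e1)
  have hcardI : I.card = Fintype.card V * Fintype.card V + C.card := by
    rw [Finset.card_union_of_disjoint, Finset.card_image_of_injective,
      Finset.card_image_of_injective, Finset.card_univ, Fintype.card_prod]
    · intro a b h
      simp only [e1, Prod.mk.injEq] at h
      exact h.1.1.1
    · intro a b h
      simp only [e0, Prod.mk.injEq] at h
      exact Prod.ext h.1.1.1 h.1.2.2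
    · rw [Finset.disjoint_left]
      intro x hx hx'
      obtain ⟨z, _, rfl⟩ := Finset.mem_image.1 hx
      obtain ⟨v, _, hv⟩ := Finset.mem_image.1 hx'
      simp only [e0, e1, Prod.mk.injEq] at hv
      exact absurd hv.2 (by decide)
  have hI : ∀ x ∈ I, ∀ y ∈ I, ¬ (f1Graph G).Adj x y := by
    have hval : ∀ x ∈ I, val1 G x := by
      intro x hx
      rcases Finset.mem_union.1 hx with h | h
      · obtain ⟨z, _, rfl⟩ := Finset.mem_image.1 h
        exact Or.inr ⟨rfl, rfl, rfl⟩
      · obtain ⟨v, hv, rfl⟩ := Finset.mem_image.1 h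
        exact Or.inl ⟨rfl, (hπ v (hCS hv)).1.2, rfl, rfl⟩
    rintro x hx y hy ⟨hxy, h | h | ⟨h1, h2, h3⟩⟩
    · exact h (hval x hx)
    · exact h (hval y hy)
    · have key : ∀ x ∈ I, x.2 = 1 → ∃ v ∈ C, x = e1 v := by
        intro x hx hx1
        rcases Finset.mem_union.1 hx with h | h
        · obtain ⟨z, _, rfl⟩ := Finset.mem_image.1 h
          exact absurd hx1 (by simp [e0])
        · obtain ⟨v, hv, hv'⟩ := Finset.mem_image.1 h
          exact ⟨v, hv, hv'.symm⟩
      obtain ⟨v, hv, rfl⟩ := key x hx h1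
      obtain ⟨w, hw, rfl⟩ := key y hy h2
      have hvw : v ≠ w := by rintro rfl; exact hxy rfl
      obtain ⟨⟨a1, a2⟩, a3⟩ := hπ v (hCS hv)
      obtain ⟨⟨b1, b2⟩, b3⟩ := hπ w (hCS hw)
      obtain ⟨⟨c1, c2⟩, c3⟩ := hπ _ a1
      obtain ⟨⟨d1, d2⟩, d3⟩ := hπ _ b1
      have ev := c3 v ⟨hCS hv, a2.symm⟩
      have ew := d3 w ⟨hCS hw, b2.symm⟩
      simp only [e1] at h3
      rcases h3 with h | h | h | h | h | h | h | h
      · exact hvw h
      · apply hCI w hw v hv
        rw [h]; exact b2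
      · apply hCI v hv w hw
        rw [← h]; exact a2
      · rw [h, ← ew] at ev
        exact hvw ev
      · exact hCI v hv w hw h
      · have := a3 _ ⟨b1, h⟩
        rw [this, ← ev] at ew
        exact hvw ew.symm
      · have := b3 _ ⟨a1, h.symm⟩
        rw [this, ← ew] at ev
        exact hvw ev
      · have := c3 _ ⟨b1, h⟩
        rw [← ev] at this
        rw [this] at b2
        exact hCI w hw v hv b2
  have := indep_card_le_indepNum (f1Graph G) I hI
  omega

theorem one_le_sq [Nonempty V] : 1 ≤ Fintype.card V * Fintype.card V := by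
  have : 1 ≤ Fintype.card V := Fintype.card_pos
  exact Nat.mul_le_mul this this

/-- `α(F1) ≤ n² + im(G)` -/
theorem f1_le [Nonempty V] : (f1Graph G).indepNum ≤
    Fintype.card V * Fintype.card V + inducedMatchingNum G := by
  classical
  obtain ⟨I, hI, hIc⟩ := exists_indep_card (f1Graph G)
  rw [← hIc]
  rcases le_or_gt I.card 1 with h1 | h1
  · have := one_le_sq (V := V)
    omega
  have hval : ∀ x ∈ I, val1 G x := by
    intro x hx
    by_contra hcon
    obtain ⟨y, hy, hyx⟩ := Finset.exists_mem_ne h1 x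
    exact hI x hx y hy ⟨hyx.symm, Or.inl hcon⟩
  have hsplit : (I.filter (fun x => x.2 = 0)).card + (I.filter (fun x => ¬ x.2 = 0)).card =
      I.card := Finset.card_filter_add_card_filter_not _
  have h0 : (I.filter (fun x => x.2 = 0)).card ≤ Fintype.card V * Fintype.card V := by
    have : ((I.filter (fun x => x.2 = 0)).image (fun x => (x.1.1.1, x.1.2.2))).card =
        (I.filter (fun x => x.2 = 0)).card := by
      refine Finset.card_image_of_injOn ?_
      intro x hx y hy hxy
      obtain ⟨hx1, hx2⟩ := Finset.mem_filter.1 hx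
      obtain ⟨hy1, hy2⟩ := Finset.mem_filter.1 hy
      have vx := hval x hx1
      have vy := hval y hy1
      rcases x with ⟨⟨⟨a, b⟩, c, d⟩, e⟩
      rcases y with ⟨⟨⟨a', b'⟩, c', d'⟩, e'⟩
      simp only [val1] at vx vy hx2 hy2 hxy
      simp only [Prod.mk.injEq] at hxy
      obtain ⟨rfl, rfl⟩ := hxy
      subst hx2; subst hy2
      rcases vx with ⟨h, _⟩ | ⟨_, vx1, vx2⟩
      · exact absurd h (by decide)
      rcases vy with ⟨h, _⟩ | ⟨_, vy1, vy2⟩
      · exact absurd h (by decide)
      rw [vx1, vx2, vy1, vy2]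
    rw [← this, ← Fintype.card_prod]
    exact Finset.card_le_univ _
  have h2 : (I.filter (fun x => ¬ x.2 = 0)).card ≤ inducedMatchingNum G := by
    set K := I.filter (fun x => ¬ x.2 = 0) with hK
    have hKv : ∀ x ∈ K, x.2 = 1 ∧ G.Adj x.1.1.1 x.1.1.2 ∧ x.1.2.1 = x.1.1.1 ∧
        x.1.2.2 = x.1.1.1 := by
      intro x hx
      obtain ⟨hx1, hx2⟩ := Finset.mem_filter.1 hx
      rcases hval x hx1 with h | ⟨h, _⟩
      · exact h
      · exact absurd h hx2
    have hsep : ∀ x ∈ K, ∀ y ∈ K, near G x.1.1.1 x.1.1.2 y.1.1.1 y.1.1.2 → x = y := by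
      intro x hx y hy h
      by_contra hxy
      exact hI x (Finset.mem_filter.1 hx).1 y (Finset.mem_filter.1 hy).1
        ⟨hxy, Or.inr (Or.inr ⟨(hKv x hx).1, (hKv y hy).1, h⟩)⟩
    let l : Tp V → V := fun x => x.1.1.1
    let r : Tp V → V := fun x => x.1.1.2
    have hl : (K.image l).card = K.card :=
      Finset.card_image_of_injOn (fun x hx y hy h => hsep x hx y hy (Or.inl h))
    have hr : (K.image r).card = K.card :=
      Finset.card_image_of_injOn (fun x hx y hy h =>
        hsep x hx y hy (Or.inr (Or.inr (Or.inr (Or.inl h)))))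
    have hdis : Disjoint (K.image l) (K.image r) := by
      rw [Finset.disjoint_left]
      intro a ha hb
      obtain ⟨x, hx, rfl⟩ := Finset.mem_image.1 ha
      obtain ⟨y, hy, hxy⟩ := Finset.mem_image.1 hb
      have := hsep x hx y hy (Or.inr (Or.inl hxy.symm))
      subst this
      exact (hKv x hx).2.1.ne hxy.symm
    refine card_le_inducedMatchingNum G (S := K.image l ∪ K.image r) ?_ ?_
    · intro a ha
      rcases Finset.mem_union.1 ha with h | h
      · obtain ⟨x, hx, rfl⟩ := Finset.mem_image.1 h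
        refine ⟨r x, ⟨Finset.mem_union_right _ (Finset.mem_image_of_mem r hx),
          (hKv x hx).2.1⟩, ?_⟩
        rintro w ⟨hw, hadj⟩
        rcases Finset.mem_union.1 hw with h' | h'
        · obtain ⟨y, hy, rfl⟩ := Finset.mem_image.1 h'
          have := hsep x hx y hy (Or.inr (Or.inr (Or.inr (Or.inr (Or.inl hadj)))))
          rw [this] at hadj
          exact absurd rfl hadj.ne
        · obtain ⟨y, hy, rfl⟩ := Finset.mem_image.1 h'
          have := hsep x hx y hy (Or.inr (Or.inr (Or.inr (Or.inr (Or.inr (Or.inl hadj))))))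
          rw [this]
      · obtain ⟨x, hx, rfl⟩ := Finset.mem_image.1 h
        refine ⟨l x, ⟨Finset.mem_union_left _ (Finset.mem_image_of_mem l hx),
          (hKv x hx).2.1.symm⟩, ?_⟩
        rintro w ⟨hw, hadj⟩
        rcases Finset.mem_union.1 hw with h' | h'
        · obtain ⟨y, hy, rfl⟩ := Finset.mem_image.1 h'
          have := hsep x hx y hy
            (Or.inr (Or.inr (Or.inr (Or.inr (Or.inr (Or.inr (Or.inl hadj)))))))
          rw [this]
        · obtain ⟨y, hy, rfl⟩ := Finset.mem_image.1 h'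
          have := hsep x hx y hy
            (Or.inr (Or.inr (Or.inr (Or.inr (Or.inr (Or.inr (Or.inr hadj)))))))
          rw [this] at hadj
          exact absurd rfl hadj.ne
    · rw [Finset.card_union_of_disjoint hdis, hl, hr]
      ring
  omega

/-- `n² + Γ(G) ≤ α(F2)` -/
theorem le_f2 : Fintype.card V * Fintype.card V + upperDom G ≤ (f2Graph G).indepNum := by
  classical
  obtain ⟨S, hS, hcard⟩ := exists_upperDom G
  have hst : ∀ v : V, ∃ q p, (v ∈ S → q = v ∧ (p = v ∨ G.Adj p v) ∧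
      ∀ w ∈ S, (p = w ∨ G.Adj p w) → w = v) ∧ (v ∉ S → q ∈ S ∧ G.Adj v q) := by
    intro v
    by_cases hv : v ∈ S
    · obtain ⟨p, hp1, hp2⟩ := exists_priv G hS hv
      exact ⟨v, p, fun _ => ⟨rfl, hp1, hp2⟩, fun h => absurd hv h⟩
    · obtain ⟨q, hq, hvq⟩ := hS.prop v hv
      exact ⟨q, v, fun h => absurd h hv, fun _ => ⟨hq, hvq⟩⟩
  choose q p hin hout using hst
  have hqS : ∀ v, q v ∈ S := by
    intro v
    by_cases hv : v ∈ S
    · rw [(hin v hv).1]; exact hv
    · exact (hout v hv).1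
  have hqv : ∀ v, q v = v → v ∈ S := by
    intro v h
    rw [← h]; exact hqS v
  let e0 : V × V → Tp V := fun z => (((z.1, q z.1), (p z.1, z.2)), 0)
  let e1 : V → Tp V := fun v => (((v, q v), (p v, v)), 1)
  let I : Finset (Tp V) := (Finset.univ.image e0) ∪ (S.image e1)
  have hcardI : I.card = Fintype.card V * Fintype.card V + S.card := by
    rw [Finset.card_union_of_disjoint, Finset.card_image_of_injective,
      Finset.card_image_of_injective, Finset.card_univ, Fintype.card_prod]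
    · intro a b h
      simp only [e1, Prod.mk.injEq] at h
      exact h.1.1.1
    · intro a b h
      simp only [e0, Prod.mk.injEq] at h
      exact Prod.ext h.1.1.1 h.1.2.2
    · rw [Finset.disjoint_left]
      intro x hx hx'
      obtain ⟨z, _, rfl⟩ := Finset.mem_image.1 hx
      obtain ⟨v, _, hv⟩ := Finset.mem_image.1 hx'
      simp only [e0, e1, Prod.mk.injEq] at hv
      exact absurd hv.2 (by decide)
  have hval : ∀ x ∈ I, val2 G x ∧ x.1.1.2 = q x.1.1.1 ∧ x.1.2.1 = p x.1.1.1 := by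
    intro x hx
    rcases Finset.mem_union.1 hx with h | h
    · obtain ⟨z, _, rfl⟩ := Finset.mem_image.1 h
      refine ⟨⟨?_, ?_, ?_⟩, rfl, rfl⟩
      · by_cases hz : z.1 ∈ S
        · exact Or.inl (hin _ hz).1
        · exact Or.inr (hout _ hz).2
      · intro h'
        exact (hin _ (hqv _ h')).2.1
      · intro h'
        exact absurd h' (by simp [e0])
    · obtain ⟨v, hv, rfl⟩ := Finset.mem_image.1 h
      refine ⟨⟨Or.inl (hin _ hv).1, fun _ => (hin _ hv).2.1, fun _ => ⟨(hin _ hv).1, rfl⟩⟩,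
        rfl, rfl⟩
  have hbad : ∀ v w : V, v ≠ w → ¬ bad2 G v (q v) (p v) w (q w) := by
    rintro v w hvw (⟨h1, h2⟩ | ⟨h1, h2, h3⟩)
    · exact h2 (hin w (h1 ▸ hqS v)).1
    · exact hvw ((hin v (hqv v h1)).2.2 w (hqv w h2) h3).symm
  have hI : ∀ x ∈ I, ∀ y ∈ I, ¬ (f2Graph G).Adj x y := by
    rintro x hx y hy ⟨hxy, h | h | ⟨h1, h2⟩ | ⟨h1, h2⟩⟩
    · exact h (hval x hx).1
    · exact h (hval y hy).1
    · rw [(hval x hx).2.1, (hval x hx).2.2, (hval y hy).2.1, (hval y hy).2.2, h1] at h2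
      rcases h2 with h2 | h2 <;> exact h2 rfl
    · rw [(hval x hx).2.1, (hval x hx).2.2, (hval y hy).2.1, (hval y hy).2.2] at h2
      rcases h2 with h2 | h2
      · exact hbad _ _ h1 h2
      · exact hbad _ _ (Ne.symm h1) h2
  have := indep_card_le_indepNum (f2Graph G) I hI
  omega

/-- `α(F2) ≤ n² + Γ(G)` -/
theorem f2_le [Nonempty V] : (f2Graph G).indepNum ≤
    Fintype.card V * Fintype.card V + upperDom G := by
  classical
  obtain ⟨I, hI, hIc⟩ := exists_indep_card (f2Graph G)
  rw [← hIc]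
  rcases le_or_gt I.card 1 with h1 | h1
  · have := one_le_sq (V := V)
    omega
  have hval : ∀ x ∈ I, val2 G x := by
    intro x hx
    by_contra hcon
    obtain ⟨y, hy, hyx⟩ := Finset.exists_mem_ne h1 x
    exact hI x hx y hy ⟨hyx.symm, Or.inl hcon⟩
  have hsame : ∀ x ∈ I, ∀ y ∈ I, x.1.1.1 = y.1.1.1 → x.1.1.2 = y.1.1.2 ∧ x.1.2.1 = y.1.2.1 := by
    intro x hx y hy h
    by_cases hxy : x = y
    · rw [hxy]; exact ⟨rfl, rfl⟩
    by_contra hcon
    refine hI x hx y hy ⟨hxy, Or.inr (Or.inr (Or.inl ⟨h, ?_⟩))⟩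
    by_cases h2 : x.1.1.2 = y.1.1.2
    · exact Or.inr (fun h3 => hcon ⟨h2, h3⟩)
    · exact Or.inl h2
  have hdiff : ∀ x ∈ I, ∀ y ∈ I, x.1.1.1 ≠ y.1.1.1 →
      ¬ bad2 G x.1.1.1 x.1.1.2 x.1.2.1 y.1.1.1 y.1.1.2 := by
    intro x hx y hy h hb
    exact hI x hx y hy ⟨fun e => h (by rw [e]), Or.inr (Or.inr (Or.inr ⟨h, Or.inl hb⟩))⟩
  -- the assigned variables and the chosen set
  let D : Finset V := I.image (fun x => x.1.1.1)
  let S : Finset V := (I.filter (fun x => x.1.1.2 = x.1.1.1)).image (fun x => x.1.1.1)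
  have hSD : S ⊆ D := by
    intro v hv
    obtain ⟨x, hx, rfl⟩ := Finset.mem_image.1 hv
    exact Finset.mem_image_of_mem _ (Finset.mem_filter.1 hx).1
  have hcount : I.card ≤ Fintype.card V * D.card + S.card := by
    have hinj : (I.image (fun x => (x.1.1.1, x.1.2.2, x.2))).card = I.card := by
      refine Finset.card_image_of_injOn ?_
      intro x hx y hy hxy
      simp only [Prod.mk.injEq] at hxy
      obtain ⟨h1, h2, h3⟩ := hxy
      obtain ⟨h4, h5⟩ := hsame x hx y hy h1
      exact Prod.ext (Prod.ext (Prod.ext h1 h4) (Prod.ext h5 h2)) h3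
    have hsub : I.image (fun x => (x.1.1.1, x.1.2.2, x.2)) ⊆
        (D ×ˢ (Finset.univ : Finset V)).image (fun z => (z.1, z.2, (0 : Fin 2))) ∪
          S.image (fun v => (v, v, (1 : Fin 2))) := by
      intro z hz
      obtain ⟨x, hx, rfl⟩ := Finset.mem_image.1 hz
      rw [Finset.mem_union]
      by_cases h2 : x.2 = 1
      · right
        obtain ⟨h3, h4⟩ := (hval x hx).2.2 h2
        refine Finset.mem_image.2 ⟨x.1.1.1, Finset.mem_image.2
          ⟨x, Finset.mem_filter.2 ⟨hx, h3⟩, rfl⟩, ?_⟩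
        rw [h4, h2]
      · left
        have h0 : x.2 = 0 := by
          rcases x with ⟨x, s⟩
          fin_cases s
          · rfl
          · exact absurd rfl h2
        refine Finset.mem_image.2 ⟨(x.1.1.1, x.1.2.2), Finset.mem_product.2
          ⟨Finset.mem_image_of_mem _ hx, Finset.mem_univ _⟩, ?_⟩
        rw [h0]
    rw [← hinj]
    refine (Finset.card_le_card hsub).trans ((Finset.card_union_le _ _).trans ?_)
    refine Nat.add_le_add (Finset.card_image_le.trans ?_) Finset.card_image_le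
    rw [Finset.card_product, Finset.card_univ, Nat.mul_comm]
  by_cases hD : D = Finset.univ
  · have hmin : Minimal (IsDominating G) S := by
      refine minimal_of_priv G ?_ ?_
      · intro v hv
        have hvD : v ∈ D := by rw [hD]; exact Finset.mem_univ v
        obtain ⟨x, hx, rfl⟩ := Finset.mem_image.1 hvD
        have hq : x.1.1.2 ≠ x.1.1.1 := by
          intro h
          exact hv (Finset.mem_image.2 ⟨x, Finset.mem_filter.2 ⟨hx, h⟩, rfl⟩)
        have hadj : G.Adj x.1.1.1 x.1.1.2 := by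
          rcases (hval x hx).1 with h | h
          · exact absurd h hq
          · exact h
        refine ⟨x.1.1.2, ?_, hadj⟩
        have hqD : x.1.1.2 ∈ D := by rw [hD]; exact Finset.mem_univ _
        obtain ⟨y, hy, hyq⟩ := Finset.mem_image.1 hqD
        have hne : x.1.1.1 ≠ y.1.1.1 := by rw [hyq]; exact hadj.ne
        have hb := hdiff x hx y hy hne
        have h3 : y.1.1.2 = y.1.1.1 := by
          by_contra h3
          exact hb (Or.inl ⟨hyq.symm, h3⟩)
        exact Finset.mem_image.2 ⟨y, Finset.mem_filter.2 ⟨hy, h3⟩, hyq⟩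
      · intro u hu
        obtain ⟨x, hx, rfl⟩ := Finset.mem_image.1 hu
        obtain ⟨hxI, hxq⟩ := Finset.mem_filter.1 hx
        refine ⟨x.1.2.1, (hval x hxI).2.1 hxq, ?_⟩
        intro w hw hpw
        obtain ⟨y, hy, rfl⟩ := Finset.mem_image.1 hw
        obtain ⟨hyI, hyq⟩ := Finset.mem_filter.1 hy
        by_contra hne
        exact hdiff x hxI y hyI (Ne.symm hne) (Or.inr ⟨hxq, hyq, hpw⟩)
    have h3 := card_le_upperDom G hmin
    have h4 : D.card = Fintype.card V := by rw [hD, Finset.card_univ]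
    rw [h4] at hcount
    omega
  · have h3 : D.card < Fintype.card V := by
      rw [← Finset.card_univ]
      exact Finset.card_lt_card (Finset.ssubset_univ_iff.2 hD)
    have h4 : S.card ≤ D.card := Finset.card_le_card hSD
    have h5 : Fintype.card V * D.card + Fintype.card V ≤ Fintype.card V * Fintype.card V := by
      have := Nat.mul_le_mul_left (Fintype.card V) (Nat.succ_le_of_lt h3)
      rw [Nat.succ_eq_add_one, Nat.mul_add, Nat.mul_one] at this
      exact this
    omega

/-- an isolated vertex makes `im < Γ` -/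
theorem im_lt_of_isolated {v : V} (hv : ∀ w, ¬ G.Adj v w) :
    inducedMatchingNum G < upperDom G := by
  classical
  obtain ⟨S, hS, hcard⟩ := exists_inducedMatchingNum G
  obtain ⟨C, hCS, _, hCI, hC2⟩ := exists_choice G S hS (fun _ => True)
    (fun _ _ _ _ _ => Or.inl trivial)
  have hvC : v ∉ C := by
    intro h
    obtain ⟨w, ⟨_, hw⟩, _⟩ := hS v (hCS h)
    exact hv w hw
  have := indep_card_le G (insert v C) (by
    intro x hx y hy
    rcases Finset.mem_insert.1 hx with hx' | hx' <;> rcases Finset.mem_insert.1 hy with hy' | hy'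
    · rw [hx']; exact hv _
    · rw [hx']; exact hv _
    · rw [hy']; exact fun h => hv _ h.symm
    · exact hCI x hx' y hy')
  rw [Finset.card_insert_of_notMem hvC] at this
  omega

/-- `G` is extremal if and only if `α(F2) ≤ α(F1)` -/
theorem extremal_iff_conf : ((∀ v, ∃ w, G.Adj v w) ∧ upperTotalDom G = 2 * upperDom G) ↔
    (f2Graph G).indepNum ≤ (f1Graph G).indepNum := by
  classical
  rcases isEmpty_or_nonempty V with hV | hV
  · constructor
    · intro _
      obtain ⟨I, _, hIc⟩ := exists_indep_card (f2Graph G)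
      have : I.card = 0 := by
        rw [Finset.card_eq_zero, Finset.eq_empty_iff_forall_notMem]
        intro x _
        exact hV.elim x.1.1.1
      omega
    · intro _
      refine ⟨fun v => hV.elim v, ?_⟩
      have h0 : ∀ S : Finset V, S.card = 0 := by
        intro S
        rw [Finset.card_eq_zero, Finset.eq_empty_iff_forall_notMem]
        intro x _
        exact hV.elim x
      obtain ⟨S, _, hS⟩ := exists_upperDom G
      obtain ⟨T, _, hT⟩ := exists_upperTotalDom G (fun v => hV.elim v)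
      rw [← hS, ← hT, h0, h0]
  · have h1 := le_antisymm (f1_le G) (le_f1 G)
    have h2 := le_antisymm (f2_le G) (le_f2 G)
    have h3 := inducedMatchingNum_le G
    rw [h1, h2]
    constructor
    · rintro ⟨h4, h5⟩
      have := (characterization G h4).1 h5
      omega
    · intro h
      have h6 : ∀ v, ∃ w, G.Adj v w := by
        intro v
        by_contra hcon
        push Not at hcon
        have := im_lt_of_isolated G hcon
        omega
      exact ⟨h6, (characterization G h6).2 (by omega)⟩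

end Finite

end Pool.Agent.Lib.P5135r
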