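import Pool.Agent.Lib.P5135r.Blow

set_option autoImplicit false
set_option linter.unusedSectionVars false
set_option linter.unusedFintypeInType false
set_option linter.unusedDecidableInType false

/-!
Invariance of the parameters under isomorphism.
-/

namespace Pool.Agent.Lib.P5135r

open Pool.Agent.Lib.P5135a5

variable {V W : Type} {G : SimpleGraph V} {H : SimpleGraph W}

theorem dom_map (e : G ≃g H) {S : Finset V} (h : IsDominating G S) :
    IsDominating H (S.map e.toEquiv.toEmbedding) := by
  intro w hw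
  have hv : e.symm w ∉ S := by
    intro h'
    apply hw
    rw [Finset.mem_map]
    exact ⟨e.symm w, h', by simp⟩
  obtain ⟨u, hu, huv⟩ := h _ hv
  refine ⟨e u, ?_, ?_⟩
  · rw [Finset.mem_map]
    exact ⟨u, hu, rfl⟩
  · have := e.map_rel_iff.2 huv
    simpa using this

theorem tdom_map (e : G ≃g H) {S : Finset V} (h : IsTotalDominating G S) :
    IsTotalDominating H (S.map e.toEquiv.toEmbedding) := by
  intro w
  obtain ⟨u, hu, huv⟩ := h (e.symm w)
  refine ⟨e u, ?_, ?_⟩
  · rw [Finset.mem_map]
    exact ⟨u, hu, rfl⟩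
  · have := e.map_rel_iff.2 huv
    simpa using this

theorem map_symm_map (e : G ≃g H) (S : Finset V) :
    (S.map e.toEquiv.toEmbedding).map e.symm.toEquiv.toEmbedding = S := by
  ext v
  rw [Finset.mem_map]
  constructor
  · rintro ⟨w, hw, rfl⟩
    obtain ⟨u, hu, rfl⟩ := Finset.mem_map.1 hw
    have h : e.symm (e u) = u := e.symm_apply_apply u
    have h' : e.symm.toEquiv.toEmbedding (e.toEquiv.toEmbedding u) = u := h
    rw [h']
    exact hu
  · intro hv
    exact ⟨e v, Finset.mem_map.2 ⟨v, hv, rfl⟩, e.symm_apply_apply v⟩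

theorem map_le_map_iff' (e : G ≃g H) {S T : Finset V} :
    S.map e.toEquiv.toEmbedding ≤ T.map e.toEquiv.toEmbedding ↔ S ≤ T :=
  Finset.map_subset_map

theorem minimal_map (e : G ≃g H) (P : Finset V → Prop) (Q : Finset W → Prop)
    (h1 : ∀ S, P S → Q (S.map e.toEquiv.toEmbedding))
    (h2 : ∀ T, Q T → P (T.map e.symm.toEquiv.toEmbedding)) {S : Finset V} (hS : Minimal P S) :
    Minimal Q (S.map e.toEquiv.toEmbedding) := by
  refine ⟨h1 S hS.prop, ?_⟩
  intro T hT hTS
  have h3 : T.map e.symm.toEquiv.toEmbedding ≤ S := by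
    have := Finset.map_subset_map (f := e.symm.toEquiv.toEmbedding).2 hTS
    rwa [map_symm_map] at this
  have h4 := hS.le_of_le (h2 T hT) h3
  have h5 := Finset.map_subset_map (f := e.toEquiv.toEmbedding).2 h4
  have h6 := map_symm_map e.symm T
  have h7 : (T.map e.symm.toEquiv.toEmbedding).map e.toEquiv.toEmbedding = T := by
    simpa using h6
  rw [h7] at h5
  exact h5

theorem sSup_iso (e : G ≃g H) (P : Finset V → Prop) (Q : Finset W → Prop)
    (h1 : ∀ S, P S → Q (S.map e.toEquiv.toEmbedding))
    (h2 : ∀ T, Q T → P (T.map e.symm.toEquiv.toEmbedding)) :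
    {n | ∃ S : Finset V, P S ∧ S.card = n} = {n | ∃ S : Finset W, Q S ∧ S.card = n} := by
  ext n
  constructor
  · rintro ⟨S, hS, rfl⟩
    exact ⟨_, h1 S hS, Finset.card_map _⟩
  · rintro ⟨S, hS, rfl⟩
    exact ⟨_, h2 S hS, Finset.card_map _⟩

theorem upperDom_iso (e : G ≃g H) : upperDom G = upperDom H := by
  unfold upperDom
  rw [sSup_iso e (Minimal (IsDominating G)) (Minimal (IsDominating H))]
  · intro S hS
    exact minimal_map e _ _ (fun _ => dom_map e) (fun _ => dom_map e.symm) hS
  · intro S hS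
    exact minimal_map e.symm _ _ (fun _ => dom_map e.symm) (fun _ => dom_map e) hS

theorem upperTotalDom_iso (e : G ≃g H) : upperTotalDom G = upperTotalDom H := by
  unfold upperTotalDom
  rw [sSup_iso e (Minimal (IsTotalDominating G)) (Minimal (IsTotalDominating H))]
  · intro S hS
    exact minimal_map e _ _ (fun _ => tdom_map e) (fun _ => tdom_map e.symm) hS
  · intro S hS
    exact minimal_map e.symm _ _ (fun _ => tdom_map e.symm) (fun _ => tdom_map e) hS

theorem noiso_iso (e : G ≃g H) : (∀ v, ∃ w, G.Adj v w) ↔ ∀ v, ∃ w, H.Adj v w := by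
  constructor
  · intro h v
    obtain ⟨w, hw⟩ := h (e.symm v)
    refine ⟨e w, ?_⟩
    have := e.map_rel_iff.2 hw
    simpa using this
  · intro h v
    obtain ⟨w, hw⟩ := h (e v)
    refine ⟨e.symm w, ?_⟩
    have := e.symm.map_rel_iff.2 hw
    simpa using this

theorem indepNum_iso [Finite V] [Finite W] (e : G ≃g H) : G.indepNum = H.indepNum := by
  have key : ∀ {V W : Type} [Finite V] [Finite W] {G : SimpleGraph V} {H : SimpleGraph W}
      (_ : G ≃g H), G.indepNum ≤ H.indepNum := by
    intro V W _ _ G H e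
    obtain ⟨I, hI, hIc⟩ := exists_indep_card G
    have := indep_card_le_indepNum H (I.map e.toEquiv.toEmbedding) (by
      intro x hx y hy h
      obtain ⟨a, ha, rfl⟩ := Finset.mem_map.1 hx
      obtain ⟨b, hb, rfl⟩ := Finset.mem_map.1 hy
      exact hI a ha b hb (e.map_rel_iff.1 h))
    rwa [Finset.card_map, hIc] at this
  exact le_antisymm (key e) (key e.symm)

end Pool.Agent.Lib.P5135r
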