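import Pool.Agent.Lib.P5135r.Pair
import Pool.Agent.Lib.P5135r.Conf
import Pool.Agent.Lib.P5135r.Col
import Pool.Agent.Lib.P5135r.Iso

set_option autoImplicit false
set_option linter.unusedSectionVars false

/-!
The reductions.
-/

namespace Pool.Agent.Lib.P5135r

open Pool.Agent.Lib.PolyTime Pool.Agent.Lib.Pa7c826 Pool.Agent.Lib.P2ba8ab Pool.Agent.Lib.P5135a5

theorem extremal_iso {V : Type} {K : SimpleGraph V} {g : Gr} (e : K ≃g g.G) :
    Extremal g ↔ ((∀ v, ∃ w, K.Adj v w) ∧ upperTotalDom K = 2 * upperDom K) := by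
  unfold Extremal
  rw [← noiso_iso e, upperDom_iso e, upperTotalDom_iso e]

/-! ### from pairs to graphs -/

/-- adjacency in `X(A, B)` in terms of digits -/
def xB (A B : ℕ → ℕ → Bool) (a j s a' j' s' : ℕ) : Bool :=
  (decide (s = 2) && decide (s' = 2) && B a a') ||
    ((decide (s = 2) && !decide (s' = 2)) || ((!decide (s = 2) && decide (s' = 2)) ||
      (!decide (s = 2) && !decide (s' = 2) &&
        (A a a' || (decide (a = a') && decide (j = j') && !decide (s = s'))))))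

/-- adjacency function of `X(A, B)` -/
noncomputable def xF (g : Gr2) (i k : ℕ) : Bool :=
  xB (adjN g.fst) (adjN g.snd) (i / 3 / g.n) (i / 3 % g.n) (i % 3) (k / 3 / g.n) (k / 3 % g.n)
    (k % 3)

/-- the first reduction -/
noncomputable def red1 (g : Gr2) : Gr := grOf (g.n * g.n * 3) (xF g)

/-- numbering of the vertices of `X(A, B)` -/
def eX (n : ℕ) : (Fin n × Fin n) × Fin 3 ≃ Fin (n * n * 3) :=
  (Equiv.prodCongr finProdFinEquiv (Equiv.refl _)).trans finProdFinEquiv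

theorem eX_val (n : ℕ) (a j : Fin n) (s : Fin 3) :
    (eX n ((a, j), s) : ℕ) = s + 3 * (j + n * a) := by
  simp [eX]

theorem xF_iff (g : Gr2) (x y : (Fin g.n × Fin g.n) × Fin 3) :
    xF g (eX g.n x) (eX g.n y) = true ↔ (xGraph g.A g.B).Adj x y := by
  obtain ⟨⟨a, j⟩, s⟩ := x
  obtain ⟨⟨a', j'⟩, s'⟩ := y
  have d1 : ∀ (a j : Fin g.n) (s : Fin 3), (eX g.n ((a, j), s) : ℕ) / 3 / g.n = a := by
    intro a j s
    rw [eX_val, dg_div _ s.2, dg_div _ j.2]
  have d2 : ∀ (a j : Fin g.n) (s : Fin 3), (eX g.n ((a, j), s) : ℕ) / 3 % g.n = j := by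
    intro a j s
    rw [eX_val, dg_div _ s.2, dg_mod _ j.2]
  have d3 : ∀ (a j : Fin g.n) (s : Fin 3), (eX g.n ((a, j), s) : ℕ) % 3 = s := by
    intro a j s
    rw [eX_val, dg_mod _ s.2]
  have hs : ∀ s : Fin 3, (s : ℕ) = 2 ↔ s = 2 := fun s => by rw [Fin.ext_iff]; rfl
  have hA : adjN g.fst a a' = true ↔ g.A.Adj a a' := adjN_fin g.fst a a'
  have hB : adjN g.snd a a' = true ↔ g.B.Adj a a' := adjN_fin g.snd a a'
  unfold xF xB
  rw [d1, d2, d3, d1, d2, d3]
  change _ ↔ xAdj g.A g.B ((a, j), s) ((a', j'), s')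
  unfold xAdj
  simp only [Bool.or_eq_true, Bool.and_eq_true, Bool.not_eq_true', decide_eq_true_eq,
    decide_eq_false_iff_not, hs, hA, hB, Prod.mk.injEq, Fin.ext_iff (a := a),
    Fin.ext_iff (a := j), ne_eq]
  have hss : ((s : ℕ) = s') ↔ s = s' := Fin.ext_iff.symm
  rw [hss]
  by_cases h1 : s = 2 <;> by_cases h2 : s' = 2 <;> simp only [h1, h2, if_true, if_false] <;> tauto

theorem red1_iso (g : Gr2) : Nonempty (xGraph (J := Fin g.n) g.A g.B ≃g (red1 g).G) :=
  ⟨isoOf (eX g.n) (xF g) _ (fun x y _ => xF_iff g x y)⟩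

theorem red1_iff (g : Gr2) : g.B.indepNum ≤ g.A.indepNum ↔ Extremal (red1 g) := by
  obtain ⟨e⟩ := red1_iso g
  rw [extremal_iso e]
  have h1 := x_noiso (J := Fin g.n) g.A g.B
  have h2 := extremal_x_iff (J := Fin g.n) g.A g.B le_rfl
  constructor
  · exact fun h => ⟨h1, h2.2 h⟩
  · exact fun h => h2.1 h.2

theorem poly_red1 : PolyC (fun _ : Gr2 => True) [Gr2.encode] (fun g => (red1 g).encode) := by
  have hn := poly2_n (D := fun _ : Gr2 => True)
  refine poly_gr (N := fun g : Gr2 => g.n * g.n * 3) (F := xF) ((hn.mul hn).mul (PolyN.const 3)) ?_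
  refine poly_rows ((hn.mul hn).mul (PolyN.const 3)) (fun u v hu hv => ?_)
  have rA := Rd.up (n := fun g : Gr2 => g.n * g.n * 3 * (g.n * g.n * 3))
    (rd_fst (D := fun _ : Gr2 => True))
  have rB := Rd.up (n := fun g : Gr2 => g.n * g.n * 3 * (g.n * g.n * 3))
    (rd_snd (D := fun _ : Gr2 => True))
  have hn' := upN (n := fun g : Gr2 => g.n * g.n * 3 * (g.n * g.n * 3)) hn
  have c3 := PolyN.const (D := fun p : Gr2 × ℕ => True ∧
    p.2 < p.1.n * p.1.n * 3 * (p.1.n * p.1.n * 3))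
    (ctx := PolyTime.lift [Gr2.encode] ++ [fun p => un p.2]) 3
  have c2 := PolyN.const (D := fun p : Gr2 × ℕ => True ∧
    p.2 < p.1.n * p.1.n * 3 * (p.1.n * p.1.n * 3))
    (ctx := PolyTime.lift [Gr2.encode] ++ [fun p => un p.2]) 2
  have a1 := nDiv' (nDiv' hu c3) hn'
  have j1 := nMod' (nDiv' hu c3) hn'
  have s1 := nMod' hu c3
  have a2 := nDiv' (nDiv' hv c3) hn'
  have j2 := nMod' (nDiv' hv c3) hn'
  have s2 := nMod' hv c3
  have e1 := PolyB.natEq s1 c2
  have e2 := PolyB.natEq s2 c2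
  exact ((e1.and e2).and (rB.adj a1 a2)).or ((e1.and e2.not).or ((e1.not.and e2).or
    ((e1.not.and e2.not).and ((rA.adj a1 a2).or
      (((PolyB.natEq a1 a2).and (PolyB.natEq j1 j2)).and (PolyB.natEq s1 s2).not)))))

/-! ### from graphs to pairs -/

/-- numbering of the vertices of `F1`, `F2` -/
def eT (n : ℕ) : Tp (Fin n) ≃ Fin (n * n * (n * n) * 2) :=
  (Equiv.prodCongr ((Equiv.prodCongr finProdFinEquiv finProdFinEquiv).trans finProdFinEquiv)
    (Equiv.refl _)).trans finProdFinEquiv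

theorem eT_val (n : ℕ) (v q p j : Fin n) (s : Fin 2) :
    (eT n (((v, q), (p, j)), s) : ℕ) = s + 2 * ((j + n * p) + n * n * (q + n * v)) := by
  simp [eT]

/-- the digits -/
def dV (n i : ℕ) : ℕ := i / 2 / (n * n) / n
/-- the digits -/
def dQ (n i : ℕ) : ℕ := i / 2 / (n * n) % n
/-- the digits -/
def dP (n i : ℕ) : ℕ := i / 2 % (n * n) / n
/-- the digits -/
def dJ (n i : ℕ) : ℕ := i / 2 % (n * n) % n
/-- the digits -/
def dS (i : ℕ) : ℕ := i % 2

theorem low_lt {n : ℕ} (p j : Fin n) : (j + n * p : ℕ) < n * n := by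
  have h1 := j.2
  have h2 : n * (p + 1 : ℕ) ≤ n * n := Nat.mul_le_mul_left _ p.2
  rw [Nat.mul_add, Nat.mul_one] at h2
  omega

theorem dV_eT {n : ℕ} (x : Tp (Fin n)) : dV n (eT n x) = x.1.1.1 := by
  obtain ⟨⟨⟨v, q⟩, p, j⟩, s⟩ := x
  rw [dV, eT_val, dg_div _ s.2, dg_div _ (low_lt p j), dg_div _ q.2]

theorem dQ_eT {n : ℕ} (x : Tp (Fin n)) : dQ n (eT n x) = x.1.1.2 := by
  obtain ⟨⟨⟨v, q⟩, p, j⟩, s⟩ := x
  rw [dQ, eT_val, dg_div _ s.2, dg_div _ (low_lt p j), dg_mod _ q.2]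

theorem dP_eT {n : ℕ} (x : Tp (Fin n)) : dP n (eT n x) = x.1.2.1 := by
  obtain ⟨⟨⟨v, q⟩, p, j⟩, s⟩ := x
  rw [dP, eT_val, dg_div _ s.2, dg_mod _ (low_lt p j), dg_div _ j.2]

theorem dJ_eT {n : ℕ} (x : Tp (Fin n)) : dJ n (eT n x) = x.1.2.2 := by
  obtain ⟨⟨⟨v, q⟩, p, j⟩, s⟩ := x
  rw [dJ, eT_val, dg_div _ s.2, dg_mod _ (low_lt p j), dg_mod _ j.2]

theorem dS_eT {n : ℕ} (x : Tp (Fin n)) : dS (eT n x) = x.2 := by
  obtain ⟨⟨⟨v, q⟩, p, j⟩, s⟩ := x
  rw [dS, eT_val, dg_mod _ s.2]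

/-- `val1` -/
def val1B (a : ℕ → ℕ → Bool) (v q p j s : ℕ) : Bool :=
  ((decide (s = 1) && a v q) && (decide (p = v) && decide (j = v))) ||
    (decide (s = 0) && (decide (q = v) && decide (p = v)))

/-- `near` -/
def nearB (a : ℕ → ℕ → Bool) (v q v' q' : ℕ) : Bool :=
  decide (v = v') || (decide (v = q') || (decide (q = v') || (decide (q = q') ||
    (a v v' || (a v q' || (a q v' || a q q'))))))

/-- `f1Adj` -/
def f1B (a : ℕ → ℕ → Bool) (v q p j s v' q' p' j' s' : ℕ) : Bool :=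
  !val1B a v q p j s || (!val1B a v' q' p' j' s' ||
    (decide (s = 1) && (decide (s' = 1) && nearB a v q v' q')))

/-- `val2` -/
def val2B (a : ℕ → ℕ → Bool) (v q p j s : ℕ) : Bool :=
  (decide (q = v) || a v q) && ((!decide (q = v) || (decide (p = v) || a p v)) &&
    (!decide (s = 1) || (decide (q = v) && decide (j = v))))

/-- `bad2` -/
def bad2B (a : ℕ → ℕ → Bool) (v q p w q' : ℕ) : Bool :=
  (decide (q = w) && !decide (q' = w)) ||
    (decide (q = v) && (decide (q' = w) && (decide (p = w) || a p w)))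

/-- `f2Adj` -/
def f2B (a : ℕ → ℕ → Bool) (v q p j s v' q' p' j' s' : ℕ) : Bool :=
  !val2B a v q p j s || (!val2B a v' q' p' j' s' ||
    ((decide (v = v') && (!decide (q = q') || !decide (p = p'))) ||
      (!decide (v = v') && (bad2B a v q p v' q' || bad2B a v' q' p' v q))))

/-- adjacency function of `F1` -/
noncomputable def f1F (g : Gr) (i k : ℕ) : Bool :=
  f1B (adjN g) (dV g.n i) (dQ g.n i) (dP g.n i) (dJ g.n i) (dS i)
    (dV g.n k) (dQ g.n k) (dP g.n k) (dJ g.n k) (dS k)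

/-- adjacency function of `F2` -/
noncomputable def f2F (g : Gr) (i k : ℕ) : Bool :=
  f2B (adjN g) (dV g.n i) (dQ g.n i) (dP g.n i) (dJ g.n i) (dS i)
    (dV g.n k) (dQ g.n k) (dP g.n k) (dJ g.n k) (dS k)

/-- the second reduction -/
noncomputable def red2 (g : Gr) : Gr2 := gr2Of (g.n * g.n * (g.n * g.n) * 2) (f1F g) (f2F g)

theorem fin2_one (s : Fin 2) : (s : ℕ) = 1 ↔ s = 1 := by rw [Fin.ext_iff]; rfl

theorem fin2_zero (s : Fin 2) : (s : ℕ) = 0 ↔ s = 0 := by rw [Fin.ext_iff]; rfl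

theorem val1B_iff (g : Gr) (x : Tp (Fin g.n)) :
    val1B (adjN g) x.1.1.1 x.1.1.2 x.1.2.1 x.1.2.2 x.2 = true ↔ val1 g.G x := by
  unfold val1B val1
  simp only [Bool.or_eq_true, Bool.and_eq_true, decide_eq_true_eq, Fin.val_inj, fin2_one,
    fin2_zero, adjN_fin]
  tauto

theorem nearB_iff (g : Gr) (v q v' q' : Fin g.n) :
    nearB (adjN g) v q v' q' = true ↔ near g.G v q v' q' := by
  unfold nearB near
  simp only [Bool.or_eq_true, decide_eq_true_eq, Fin.val_inj, adjN_fin]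

theorem val2B_iff (g : Gr) (x : Tp (Fin g.n)) :
    val2B (adjN g) x.1.1.1 x.1.1.2 x.1.2.1 x.1.2.2 x.2 = true ↔ val2 g.G x := by
  unfold val2B val2
  simp only [Bool.or_eq_true, Bool.and_eq_true, Bool.not_eq_true', decide_eq_true_eq,
    decide_eq_false_iff_not, Fin.val_inj, fin2_one, adjN_fin]
  tauto

theorem bad2B_iff (g : Gr) (v q p w q' : Fin g.n) :
    bad2B (adjN g) v q p w q' = true ↔ bad2 g.G v q p w q' := by
  unfold bad2B bad2
  simp only [Bool.or_eq_true, Bool.and_eq_true, Bool.not_eq_true', decide_eq_true_eq,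
    decide_eq_false_iff_not, Fin.val_inj, adjN_fin, ne_eq]

theorem f1F_iff (g : Gr) (x y : Tp (Fin g.n)) :
    f1F g (eT g.n x) (eT g.n y) = true ↔ f1Adj g.G x y := by
  unfold f1F f1B f1Adj
  rw [dV_eT, dQ_eT, dP_eT, dJ_eT, dS_eT, dV_eT, dQ_eT, dP_eT, dJ_eT, dS_eT]
  simp only [Bool.or_eq_true, Bool.and_eq_true, Bool.not_eq_true', decide_eq_true_eq, fin2_one,
    ← val1B_iff, nearB_iff, Bool.not_eq_true]

theorem f2F_iff (g : Gr) (x y : Tp (Fin g.n)) :
    f2F g (eT g.n x) (eT g.n y) = true ↔ f2Adj g.G x y := by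
  unfold f2F f2B f2Adj
  rw [dV_eT, dQ_eT, dP_eT, dJ_eT, dS_eT, dV_eT, dQ_eT, dP_eT, dJ_eT, dS_eT]
  simp only [Bool.or_eq_true, Bool.and_eq_true, Bool.not_eq_true', decide_eq_true_eq,
    decide_eq_false_iff_not, Fin.val_inj, bad2B_iff, ← val2B_iff, Bool.not_eq_true, ne_eq]

theorem f1_iso (g : Gr) : Nonempty (f1Graph g.G ≃g (red2 g).fst.G) :=
  ⟨isoOf (eT g.n) (f1F g) _ (fun x y hxy => by
    rw [f1F_iff]
    exact ⟨fun h => ⟨hxy, h⟩, fun h => h.2⟩)⟩

theorem f2_iso (g : Gr) : Nonempty (f2Graph g.G ≃g (red2 g).snd.G) :=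
  ⟨isoOf (eT g.n) (f2F g) _ (fun x y hxy => by
    rw [f2F_iff]
    exact ⟨fun h => ⟨hxy, h⟩, fun h => h.2⟩)⟩

theorem red2_iff (g : Gr) :
    Extremal g ↔ (red2 g).B.indepNum ≤ (red2 g).A.indepNum := by
  obtain ⟨e1⟩ := f1_iso g
  obtain ⟨e2⟩ := f2_iso g
  have h1 : (red2 g).A.indepNum = (f1Graph g.G).indepNum := (indepNum_iso e1).symm
  have h2 : (red2 g).B.indepNum = (f2Graph g.G).indepNum := (indepNum_iso e2).symm
  rw [h1, h2]
  exact extremal_iff_conf g.G

section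

variable {α : Type} {D : α → Prop} {ctx : List (α → List Bool)} {g : α → Gr}

theorem poly_val1B (hg : Rd D ctx g) {v q p j s : α → ℕ} (hv : PolyN D ctx v)
    (hq : PolyN D ctx q) (hp : PolyN D ctx p) (hj : PolyN D ctx j) (hs : PolyN D ctx s) :
    PolyB D ctx (fun a => val1B (adjN (g a)) (v a) (q a) (p a) (j a) (s a)) :=
  (((PolyB.natEq hs (PolyN.const 1)).and (hg.adj hv hq)).and
    ((PolyB.natEq hp hv).and (PolyB.natEq hj hv))).or
    ((PolyB.natEq hs (PolyN.const 0)).and ((PolyB.natEq hq hv).and (PolyB.natEq hp hv)))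

theorem poly_nearB (hg : Rd D ctx g) {v q v' q' : α → ℕ} (hv : PolyN D ctx v)
    (hq : PolyN D ctx q) (hv' : PolyN D ctx v') (hq' : PolyN D ctx q') :
    PolyB D ctx (fun a => nearB (adjN (g a)) (v a) (q a) (v' a) (q' a)) :=
  (PolyB.natEq hv hv').or ((PolyB.natEq hv hq').or ((PolyB.natEq hq hv').or
    ((PolyB.natEq hq hq').or ((hg.adj hv hv').or ((hg.adj hv hq').or
      ((hg.adj hq hv').or (hg.adj hq hq')))))))

theorem poly_val2B (hg : Rd D ctx g) {v q p j s : α → ℕ} (hv : PolyN D ctx v)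
    (hq : PolyN D ctx q) (hp : PolyN D ctx p) (hj : PolyN D ctx j) (hs : PolyN D ctx s) :
    PolyB D ctx (fun a => val2B (adjN (g a)) (v a) (q a) (p a) (j a) (s a)) :=
  ((PolyB.natEq hq hv).or (hg.adj hv hq)).and
    (((PolyB.natEq hq hv).not.or ((PolyB.natEq hp hv).or (hg.adj hp hv))).and
      ((PolyB.natEq hs (PolyN.const 1)).not.or ((PolyB.natEq hq hv).and (PolyB.natEq hj hv))))

theorem poly_bad2B (hg : Rd D ctx g) {v q p w q' : α → ℕ} (hv : PolyN D ctx v)
    (hq : PolyN D ctx q) (hp : PolyN D ctx p) (hw : PolyN D ctx w) (hq' : PolyN D ctx q') :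
    PolyB D ctx (fun a => bad2B (adjN (g a)) (v a) (q a) (p a) (w a) (q' a)) :=
  ((PolyB.natEq hq hw).and (PolyB.natEq hq' hw).not).or
    ((PolyB.natEq hq hv).and ((PolyB.natEq hq' hw).and ((PolyB.natEq hp hw).or (hg.adj hp hw))))

theorem poly_f1F (hg : Rd D ctx g) {i k : α → ℕ} (hi : PolyN D ctx i) (hk : PolyN D ctx k) :
    PolyB D ctx (fun a => f1F (g a) (i a) (k a)) := by
  have hn := hg.n
  have c2 := PolyN.const (D := D) (ctx := ctx) 2
  have hdig : ∀ {i : α → ℕ}, PolyN D ctx i → PolyN D ctx (fun a => dV (g a).n (i a)) ∧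
      PolyN D ctx (fun a => dQ (g a).n (i a)) ∧ PolyN D ctx (fun a => dP (g a).n (i a)) ∧
      PolyN D ctx (fun a => dJ (g a).n (i a)) ∧ PolyN D ctx (fun a => dS (i a)) := by
    intro i hi
    have h2 := nDiv' hi c2
    have hh := nDiv' h2 (hn.mul hn)
    have hl := nMod' h2 (hn.mul hn)
    exact ⟨nDiv' hh hn, nMod' hh hn, nDiv' hl hn, nMod' hl hn, nMod' hi c2⟩
  obtain ⟨v, q, p, j, s⟩ := hdig hi
  obtain ⟨v', q', p', j', s'⟩ := hdig hk
  exact (poly_val1B hg v q p j s).not.or ((poly_val1B hg v' q' p' j' s').not.or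
    ((PolyB.natEq s (PolyN.const 1)).and ((PolyB.natEq s' (PolyN.const 1)).and
      (poly_nearB hg v q v' q'))))

theorem poly_f2F (hg : Rd D ctx g) {i k : α → ℕ} (hi : PolyN D ctx i) (hk : PolyN D ctx k) :
    PolyB D ctx (fun a => f2F (g a) (i a) (k a)) := by
  have hn := hg.n
  have c2 := PolyN.const (D := D) (ctx := ctx) 2
  have hdig : ∀ {i : α → ℕ}, PolyN D ctx i → PolyN D ctx (fun a => dV (g a).n (i a)) ∧
      PolyN D ctx (fun a => dQ (g a).n (i a)) ∧ PolyN D ctx (fun a => dP (g a).n (i a)) ∧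
      PolyN D ctx (fun a => dJ (g a).n (i a)) ∧ PolyN D ctx (fun a => dS (i a)) := by
    intro i hi
    have h2 := nDiv' hi c2
    have hh := nDiv' h2 (hn.mul hn)
    have hl := nMod' h2 (hn.mul hn)
    exact ⟨nDiv' hh hn, nMod' hh hn, nDiv' hl hn, nMod' hl hn, nMod' hi c2⟩
  obtain ⟨v, q, p, j, s⟩ := hdig hi
  obtain ⟨v', q', p', j', s'⟩ := hdig hk
  exact (poly_val2B hg v q p j s).not.or ((poly_val2B hg v' q' p' j' s').not.or
    (((PolyB.natEq v v').and ((PolyB.natEq q q').not.or (PolyB.natEq p p').not)).or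
      ((PolyB.natEq v v').not.and ((poly_bad2B hg v q p v' q').or
        (poly_bad2B hg v' q' p' v q)))))

end

theorem poly_red2 : PolyC (fun _ : Gr => True) [Gr.encode] (fun g => (red2 g).encode) := by
  have hn := poly_n (D := fun _ : Gr => True)
  have hN : PolyN (fun _ : Gr => True) [Gr.encode] (fun g => g.n * g.n * (g.n * g.n) * 2) :=
    ((hn.mul hn).mul (hn.mul hn)).mul (PolyN.const 2)
  refine poly_gr2 (N := fun g : Gr => g.n * g.n * (g.n * g.n) * 2) (F := f1F) (F' := f2F) hN ?_ ?_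
  · exact poly_rows hN (fun u v hu hv => poly_f1F (Rd.up
      (n := fun g : Gr => g.n * g.n * (g.n * g.n) * 2 * (g.n * g.n * (g.n * g.n) * 2))
      (rd_gr (D := fun _ : Gr => True))) hu hv)
  · exact poly_rows hN (fun u v hu hv => poly_f2F (Rd.up
      (n := fun g : Gr => g.n * g.n * (g.n * g.n) * 2 * (g.n * g.n * (g.n * g.n) * 2))
      (rd_gr (D := fun _ : Gr => True))) hu hv)

/-! ### 3-colourability -/

theorem adjN_true (g : Gr) (a b : ℕ) : adjN g a b = true ↔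
    ∃ (h1 : a < g.n) (h2 : b < g.n), g.G.Adj ⟨a, h1⟩ ⟨b, h2⟩ := by
  constructor
  · intro h
    by_cases h1 : a < g.n ∧ b < g.n
    · exact ⟨h1.1, h1.2, (adjN_fin g ⟨a, h1.1⟩ ⟨b, h1.2⟩).1 h⟩
    · exfalso
      unfold adjN at h
      rw [dif_neg h1] at h
      exact Bool.false_ne_true h
  · rintro ⟨h1, h2, h⟩
    exact (adjN_fin g ⟨a, h1⟩ ⟨b, h2⟩).2 h

theorem adjN_symm (g : Gr) (a b : ℕ) (h : adjN g a b = true) : adjN g b a = true := by
  rw [adjN_true] at h ⊢
  obtain ⟨h1, h2, h3⟩ := h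
  exact ⟨h2, h1, h3.symm⟩

theorem adjN_irrefl (g : Gr) (a : ℕ) : ¬ adjN g a a = true := by
  rw [adjN_true]
  rintro ⟨_, _, h⟩
  exact h.ne rfl

/-- `g` with one more vertex, which is isolated -/
noncomputable def extG (g : Gr) : SimpleGraph (Fin (g.n + 1)) where
  Adj a b := adjN g a b = true
  symm := ⟨fun _ _ h => adjN_symm g _ _ h⟩
  loopless := ⟨fun a h => adjN_irrefl g a h⟩

theorem extG_last (g : Gr) (w : Fin (g.n + 1)) : ¬ (extG g).Adj (Fin.last g.n) w := by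
  intro h
  have h' : adjN g g.n w = true := h
  obtain ⟨h1, _, _⟩ := (adjN_true _ _ _).1 h'
  exact lt_irrefl _ h1

theorem extG_colorable (g : Gr) : (extG g).Colorable 3 ↔ g.G.Colorable 3 := by
  constructor
  · rintro ⟨c⟩
    refine ⟨SimpleGraph.Coloring.mk (fun v => c v.castSucc) ?_⟩
    intro v w hvw
    exact c.valid (show (extG g).Adj v.castSucc w.castSucc from (adjN_fin g v w).2 hvw)
  · rintro ⟨c⟩
    refine ⟨SimpleGraph.Coloring.mk (fun v => if h : v.1 < g.n then c ⟨v.1, h⟩ else 0) ?_⟩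
    intro v w hvw
    have h' : adjN g v w = true := hvw
    obtain ⟨h1, h2, h3⟩ := (adjN_true _ _ _).1 h'
    rw [dif_pos h1, dif_pos h2]
    exact c.valid h3

/-- adjacency functions on `Fin ((n + 1) * 3)` -/
def triF (i k : ℕ) : Bool := decide (i / 3 = k / 3)

/-- adjacency functions on `Fin ((n + 1) * 3)` -/
noncomputable def colF (g : Gr) (i k : ℕ) : Bool :=
  decide (i / 3 = k / 3) || (decide (i % 3 = k % 3) && adjN g (i / 3) (k / 3))

/-- adjacency functions on `Fin ((n + 1) * 3)` -/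
noncomputable def colF' (g : Gr) (i k : ℕ) : Bool :=
  (decide (i / 3 = k / 3) && !(decide (i / 3 = g.n) && (decide (i % 3 = 2) || decide (k % 3 = 2))))
    || (decide (i % 3 = k % 3) && adjN g (i / 3) (k / 3))

/-- the reduction of 3-colourability -/
noncomputable def red3 (g : Gr) : Gr2 := gr2Of ((g.n + 1) * 3) (colF g) triF

/-- the reduction of the complement of 3-colourability -/
noncomputable def red4 (g : Gr) : Gr2 := gr2Of ((g.n + 1) * 3) triF (colF' g)

theorem eC_div {m : ℕ} (x : Fin m × Fin 3) : (finProdFinEquiv x : ℕ) / 3 = x.1 := by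
  obtain ⟨a, c⟩ := x
  have : (finProdFinEquiv (a, c) : ℕ) = c + 3 * a := by simp
  rw [this, dg_div _ c.2]

theorem eC_mod {m : ℕ} (x : Fin m × Fin 3) : (finProdFinEquiv x : ℕ) % 3 = x.2 := by
  obtain ⟨a, c⟩ := x
  have : (finProdFinEquiv (a, c) : ℕ) = c + 3 * a := by simp
  rw [this, dg_mod _ c.2]

theorem tri_iso (g : Gr) : Nonempty (triGraph (Fin (g.n + 1)) ≃g (grOf ((g.n + 1) * 3) triF).G) :=
  ⟨isoOf finProdFinEquiv triF _ (fun x y hxy => by
    unfold triF
    rw [eC_div, eC_div, decide_eq_true_eq, Fin.val_inj]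
    exact ⟨fun h => ⟨hxy, h⟩, fun h => h.2⟩)⟩

theorem col_iso (g : Gr) :
    Nonempty (colGraph (extG g) ≃g (grOf ((g.n + 1) * 3) (colF g)).G) :=
  ⟨isoOf finProdFinEquiv (colF g) _ (fun x y hxy => by
    unfold colF
    rw [eC_div, eC_div, eC_mod, eC_mod, Bool.or_eq_true, Bool.and_eq_true, decide_eq_true_eq,
      decide_eq_true_eq, Fin.val_inj, Fin.val_inj]
    exact ⟨fun h => ⟨hxy, h⟩, fun h => h.2⟩)⟩

theorem col'_iso (g : Gr) : Nonempty
    (colGraph' (extG g) (Fin.last g.n) ≃g (grOf ((g.n + 1) * 3) (colF' g)).G) :=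
  ⟨isoOf finProdFinEquiv (colF' g) _ (fun x y hxy => by
    unfold colF'
    have h3 : ∀ s : Fin 3, (s : ℕ) = 2 ↔ s = 2 := fun s => by rw [Fin.ext_iff]; rfl
    have h4 : ∀ a : Fin (g.n + 1), (a : ℕ) = g.n ↔ a = Fin.last g.n := fun a => by
      rw [Fin.ext_iff]; rfl
    rw [eC_div, eC_div, eC_mod, eC_mod]
    simp only [Bool.or_eq_true, Bool.and_eq_true, decide_eq_true_eq, Bool.not_eq_true',
      Bool.and_eq_false_iff, Bool.or_eq_false_iff, decide_eq_false_iff_not, Fin.val_inj, h3, h4]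
    change _ ↔ x ≠ y ∧ ((x.1 = y.1 ∧ ¬ (x.1 = Fin.last g.n ∧ (x.2 = 2 ∨ y.2 = 2))) ∨
      (x.2 = y.2 ∧ adjN g x.1 y.1 = true))
    tauto)⟩

theorem red3_iff (g : Gr) : g.G.Colorable 3 ↔ (red3 g).B.indepNum ≤ (red3 g).A.indepNum := by
  obtain ⟨e1⟩ := tri_iso g
  obtain ⟨e2⟩ := col_iso g
  have h1 : (red3 g).B.indepNum = (triGraph (Fin (g.n + 1))).indepNum := (indepNum_iso e1).symm
  have h2 : (red3 g).A.indepNum = (colGraph (extG g)).indepNum := (indepNum_iso e2).symm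
  rw [h1, h2, tri_le_col_iff, extG_colorable]

theorem red4_iff (g : Gr) : ¬ g.G.Colorable 3 ↔ (red4 g).B.indepNum ≤ (red4 g).A.indepNum := by
  obtain ⟨e1⟩ := tri_iso g
  obtain ⟨e2⟩ := col'_iso g
  have h1 : (red4 g).A.indepNum = (triGraph (Fin (g.n + 1))).indepNum := (indepNum_iso e1).symm
  have h2 : (red4 g).B.indepNum = (colGraph' (extG g) (Fin.last g.n)).indepNum :=
    (indepNum_iso e2).symm
  rw [h1, h2, col'_le_tri_iff _ _ (extG_last g), extG_colorable]

section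

variable {α : Type} {D : α → Prop} {ctx : List (α → List Bool)} {g : α → Gr}

theorem poly_triF {i k : α → ℕ} (hi : PolyN D ctx i) (hk : PolyN D ctx k) :
    PolyB D ctx (fun a => triF (i a) (k a)) :=
  PolyB.natEq (nDiv' hi (PolyN.const 3)) (nDiv' hk (PolyN.const 3))

theorem poly_colF (hg : Rd D ctx g) {i k : α → ℕ} (hi : PolyN D ctx i) (hk : PolyN D ctx k) :
    PolyB D ctx (fun a => colF (g a) (i a) (k a)) :=
  (PolyB.natEq (nDiv' hi (PolyN.const 3)) (nDiv' hk (PolyN.const 3))).or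
    ((PolyB.natEq (nMod' hi (PolyN.const 3)) (nMod' hk (PolyN.const 3))).and
      (hg.adj (nDiv' hi (PolyN.const 3)) (nDiv' hk (PolyN.const 3))))

theorem poly_colF' (hg : Rd D ctx g) {i k : α → ℕ} (hi : PolyN D ctx i) (hk : PolyN D ctx k) :
    PolyB D ctx (fun a => colF' (g a) (i a) (k a)) :=
  ((PolyB.natEq (nDiv' hi (PolyN.const 3)) (nDiv' hk (PolyN.const 3))).and
    ((PolyB.natEq (nDiv' hi (PolyN.const 3)) hg.n).and
      ((PolyB.natEq (nMod' hi (PolyN.const 3)) (PolyN.const 2)).or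
        (PolyB.natEq (nMod' hk (PolyN.const 3)) (PolyN.const 2)))).not).or
    ((PolyB.natEq (nMod' hi (PolyN.const 3)) (nMod' hk (PolyN.const 3))).and
      (hg.adj (nDiv' hi (PolyN.const 3)) (nDiv' hk (PolyN.const 3))))

end

theorem poly_red3 : PolyC (fun _ : Gr => True) [Gr.encode] (fun g => (red3 g).encode) := by
  have hn := poly_n (D := fun _ : Gr => True)
  have hN : PolyN (fun _ : Gr => True) [Gr.encode] (fun g => (g.n + 1) * 3) :=
    hn.succ.mul (PolyN.const 3)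
  refine poly_gr2 (N := fun g : Gr => (g.n + 1) * 3) (F := colF) (F' := fun _ => triF) hN ?_ ?_
  · exact poly_rows hN (fun u v hu hv => poly_colF (Rd.up
      (n := fun g : Gr => (g.n + 1) * 3 * ((g.n + 1) * 3))
      (rd_gr (D := fun _ : Gr => True))) hu hv)
  · exact poly_rows hN (fun u v hu hv => poly_triF hu hv)

theorem poly_red4 : PolyC (fun _ : Gr => True) [Gr.encode] (fun g => (red4 g).encode) := by
  have hn := poly_n (D := fun _ : Gr => True)
  have hN : PolyN (fun _ : Gr => True) [Gr.encode] (fun g => (g.n + 1) * 3) :=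
    hn.succ.mul (PolyN.const 3)
  refine poly_gr2 (N := fun g : Gr => (g.n + 1) * 3) (F := fun _ => triF) (F' := colF') hN ?_ ?_
  · exact poly_rows hN (fun u v hu hv => poly_triF hu hv)
  · exact poly_rows hN (fun u v hu hv => poly_colF' (Rd.up
      (n := fun g : Gr => (g.n + 1) * 3 * ((g.n + 1) * 3))
      (rd_gr (D := fun _ : Gr => True))) hu hv)

/-! ### reducibility -/

theorem reduces_of_poly {α β : Type} {encα : α → List Bool} {encβ : β → List Bool}
    {P : α → Prop} {Q : β → Prop} (f : α → β)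
    (hf : PolyC (fun _ : α => True) [encα] (fun a => encβ (f a))) (h : ∀ a, P a ↔ Q (f a)) :
    Reduces encα encβ P Q := by
  refine ⟨f, ?_, h⟩
  obtain ⟨⟨tm, time, hout⟩⟩ := PolyC.toTM2 encα (D := fun _ => True) f encβ hf
  exact ⟨⟨tm, time, fun g => hout ⟨g, trivial⟩⟩⟩

theorem poly_comp {α β γ : Type} {encα : α → List Bool} {encβ : β → List Bool}
    {encγ : γ → List Bool} {f : α → β} {h : β → γ}
    (hf : PolyC (fun _ : α => True) [encα] (fun a => encβ (f a)))
    (hh : PolyC (fun _ : β => True) [encβ] (fun b => encγ (h b))) :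
    PolyC (fun _ : α => True) [encα] (fun a => encγ (h (f a))) := by
  have h1 := hh.reindex (D' := fun _ : α => True) f (fun _ _ => trivial)
  refine PolyC.comp (t := fun a => encγ (h (f a))) h1 ?_
  intro F hF
  simp only [List.map_cons, List.map_nil, List.mem_singleton] at hF
  rw [hF]
  exact hf

/-- Recognition of the extremal graphs is equivalent to the comparison of independence numbers,
and 3-colourability and its complement reduce to it. -/
theorem main_reductions :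
    Reduces Gr2.encode Gr.encode (fun g => g.B.indepNum ≤ g.A.indepNum) Extremal ∧
    Reduces Gr.encode Gr2.encode Extremal (fun g => g.B.indepNum ≤ g.A.indepNum) ∧
    Reduces Gr.encode Gr.encode (fun g => g.G.Colorable 3) Extremal ∧
    Reduces Gr.encode Gr.encode (fun g => ¬ g.G.Colorable 3) Extremal := by
  refine ⟨reduces_of_poly red1 poly_red1 red1_iff, reduces_of_poly red2 poly_red2 red2_iff,
    reduces_of_poly (fun g => red1 (red3 g)) (poly_comp poly_red3 poly_red1)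
      (fun g => (red3_iff g).trans (red1_iff _)),
    reduces_of_poly (fun g => red1 (red4 g)) (poly_comp poly_red4 poly_red1)
      (fun g => (red4_iff g).trans (red1_iff _))⟩

end Pool.Agent.Lib.P5135r
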