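import Pool.Agent.Lib.P5135a5.Main

set_option autoImplicit false
set_option linter.unusedSectionVars false
set_option linter.unusedFintypeInType false
set_option linter.unusedDecidableInType false

/-!
The graph `X(A, B) = A[t K_2] ∨ B[t K_1]`, for which `im = Γ` if and only if `α(B) ≤ α(A)`.
-/

namespace Pool.Agent.Lib.P5135r

open Pool.Agent.Lib.P5135a5

/-- independent sets as plain statements -/
theorem indep_card_le_indepNum {V : Type} [Finite V] (F : SimpleGraph V) (I : Finset V)
    (hI : ∀ x ∈ I, ∀ y ∈ I, ¬ F.Adj x y) : I.card ≤ F.indepNum :=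
  SimpleGraph.IsIndepSet.card_le_indepNum (fun x hx y hy _ => hI x hx y hy)

theorem exists_indep_card {V : Type} [Finite V] (F : SimpleGraph V) :
    ∃ I : Finset V, (∀ x ∈ I, ∀ y ∈ I, ¬ F.Adj x y) ∧ I.card = F.indepNum := by
  obtain ⟨I, hI⟩ := F.exists_isNIndepSet_indepNum
  refine ⟨I, ?_, hI.card_eq⟩
  intro x hx y hy h
  exact hI.isIndepSet hx hy h.ne h

theorem indepNum_pos {V : Type} [Finite V] [Nonempty V] (F : SimpleGraph V) :
    1 ≤ F.indepNum := by
  obtain ⟨v⟩ := ‹Nonempty V›
  have := indep_card_le_indepNum F {v} (by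
    intro x hx y hy h
    rw [Finset.mem_singleton] at hx hy
    rw [hx, hy] at h
    exact h.ne rfl)
  simpa using this

section

variable {V J : Type} [Fintype V] [Fintype J]

/-- counting a set whose elements have classes in `V` -/
theorem class_bound {W : Type} (F : SimpleGraph V) (c : W → V) (S : Finset W) (t : ℕ)
    (ht : Fintype.card V ≤ t)
    (h1 : ∀ x ∈ S, ∀ y ∈ S, F.Adj (c x) (c y) → ∀ z ∈ S, c z = c x → z = x)
    (h2 : ∀ a : V, ∀ T ⊆ S, (∀ x ∈ T, c x = a) → T.card ≤ t) :
    S.card ≤ t * F.indepNum := by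
  classical
  let T := S.image c
  let I := T.filter (fun a => ∀ b ∈ T, ¬ F.Adj a b)
  let O := T.filter (fun a => ¬ ∀ b ∈ T, ¬ F.Adj a b)
  have hIO : I.card + O.card = T.card := Finset.card_filter_add_card_filter_not _
  have hcl : S.card = ∑ a ∈ T, (S.filter (fun x => c x = a)).card :=
    Finset.card_eq_sum_card_image c S
  have hsplit : S.card = ∑ a ∈ I, (S.filter (fun x => c x = a)).card +
      ∑ a ∈ O, (S.filter (fun x => c x = a)).card := by
    rw [hcl]
    exact (Finset.sum_filter_add_sum_filter_not T _ _).symm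
  have hI1 : ∑ a ∈ I, (S.filter (fun x => c x = a)).card ≤ I.card * t := by
    refine Finset.sum_le_card_nsmul I _ t (fun a _ => ?_)
    exact h2 a _ (Finset.filter_subset _ _) (fun x hx => (Finset.mem_filter.1 hx).2)
  have hO1 : ∑ a ∈ O, (S.filter (fun x => c x = a)).card ≤ O.card * 1 := by
    refine Finset.sum_le_card_nsmul O _ 1 (fun a ha => ?_)
    obtain ⟨haT, hb⟩ := Finset.mem_filter.1 ha
    push Not at hb
    obtain ⟨b, hbT, hab⟩ := hb
    obtain ⟨x, hx, rfl⟩ := Finset.mem_image.1 haT
    obtain ⟨y, hy, rfl⟩ := Finset.mem_image.1 hbT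
    rw [Finset.card_le_one]
    intro z hz z' hz'
    obtain ⟨hz1, hz2⟩ := Finset.mem_filter.1 hz
    obtain ⟨hz1', hz2'⟩ := Finset.mem_filter.1 hz'
    rw [h1 x hx y hy hab z hz1 hz2, h1 x hx y hy hab z' hz1' hz2']
  have hIind : ∀ x ∈ I, ∀ y ∈ I, ¬ F.Adj x y := by
    intro x hx y hy
    exact (Finset.mem_filter.1 hx).2 y (Finset.mem_filter.1 hy).1
  have hIc := indep_card_le_indepNum F I hIind
  have hOc : O.card ≤ t := (Finset.card_le_univ O).trans ht
  rcases O.eq_empty_or_nonempty with hO | ⟨o, ho⟩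
  · have h0 : O.card = 0 := by rw [hO]; rfl
    rw [h0] at hO1
    calc S.card ≤ I.card * t := by omega
      _ ≤ F.indepNum * t := Nat.mul_le_mul_right _ hIc
      _ = t * F.indepNum := Nat.mul_comm _ _
  · have hoT := (Finset.mem_filter.1 ho).1
    have hoI : o ∉ I := by
      intro h
      exact (Finset.mem_filter.1 ho).2 (Finset.mem_filter.1 h).2
    have hins := indep_card_le_indepNum F (insert o I) (by
      intro x hx y hy
      rcases Finset.mem_insert.1 hx with hx' | hx' <;> rcases Finset.mem_insert.1 hy with hy' | hy'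
      · rw [hx', hy']; exact fun h => h.ne rfl
      · rw [hx']; exact fun h => (Finset.mem_filter.1 hy').2 o hoT h.symm
      · rw [hy']; exact (Finset.mem_filter.1 hx').2 o hoT
      · exact hIind x hx' y hy')
    rw [Finset.card_insert_of_notMem hoI] at hins
    calc S.card ≤ I.card * t + t := by omega
      _ = (I.card + 1) * t := by ring
      _ ≤ F.indepNum * t := Nat.mul_le_mul_right _ hins
      _ = t * F.indepNum := Nat.mul_comm _ _

variable (A B : SimpleGraph V)

/-- adjacency of `X(A, B)` -/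
def xAdj (x y : (V × J) × Fin 3) : Prop :=
  if x.2 = 2 then (if y.2 = 2 then B.Adj x.1.1 y.1.1 else True)
  else (if y.2 = 2 then True else (A.Adj x.1.1 y.1.1 ∨ (x.1 = y.1 ∧ x.2 ≠ y.2)))

/-- The join of `A[t K_2]` (last coordinates `0` and `1`) and `B[t K_1]` (last coordinate `2`),
`t = |J|`: every vertex of `A` is replaced by `t` disjoint edges, every vertex of `B` by `t`
isolated vertices. -/
def xGraph : SimpleGraph ((V × J) × Fin 3) where
  Adj x y := xAdj A B x y
  symm := ⟨by
    intro x y h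
    unfold xAdj at h ⊢
    by_cases h1 : x.2 = 2 <;> by_cases h2 : y.2 = 2
    · rw [if_pos h1, if_pos h2] at h
      rw [if_pos h2, if_pos h1]
      exact h.symm
    · rw [if_neg h2, if_pos h1]
      trivial
    · rw [if_pos h2, if_neg h1]
      trivial
    · rw [if_neg h1, if_neg h2] at h
      rw [if_neg h2, if_neg h1]
      rcases h with h | ⟨h, h'⟩
      · exact Or.inl h.symm
      · exact Or.inr ⟨h.symm, Ne.symm h'⟩⟩
  loopless := ⟨by
    intro x h
    unfold xAdj at h
    split_ifs at h with h1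
    · exact h.ne rfl
    · rcases h with h | ⟨_, h'⟩
      · exact h.ne rfl
      · exact h' rfl⟩

theorem xadj_bb {x y : (V × J) × Fin 3} (hx : x.2 = 2) (hy : y.2 = 2) :
    (xGraph A B).Adj x y ↔ B.Adj x.1.1 y.1.1 := by
  change xAdj A B x y ↔ _
  unfold xAdj
  rw [if_pos hx, if_pos hy]

theorem xadj_ba {x y : (V × J) × Fin 3} (hx : x.2 = 2) (hy : y.2 ≠ 2) :
    (xGraph A B).Adj x y := by
  change xAdj A B x y
  unfold xAdj
  rw [if_pos hx, if_neg hy]
  trivial

theorem xadj_ab {x y : (V × J) × Fin 3} (hx : x.2 ≠ 2) (hy : y.2 = 2) :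
    (xGraph A B).Adj x y := (xadj_ba A B hy hx).symm

theorem xadj_aa {x y : (V × J) × Fin 3} (hx : x.2 ≠ 2) (hy : y.2 ≠ 2) :
    (xGraph A B).Adj x y ↔ A.Adj x.1.1 y.1.1 ∨ (x.1 = y.1 ∧ x.2 ≠ y.2) := by
  change xAdj A B x y ↔ _
  unfold xAdj
  rw [if_neg hx, if_neg hy]

/-- `X(A, B)` has no isolated vertex. -/
theorem x_noiso (x : (V × J) × Fin 3) : ∃ y, (xGraph A B).Adj x y := by
  by_cases hx : x.2 = 2
  · exact ⟨(x.1, 0), xadj_ba A B hx (by simp)⟩
  · exact ⟨(x.1, 2), xadj_ab A B hx rfl⟩

/-- the private neighbour of an element of a minimal dominating set -/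
theorem exists_priv {W : Type} (G : SimpleGraph W) {S : Finset W}
    (hS : Minimal (IsDominating G) S) {u : W} (hu : u ∈ S) :
    ∃ p, (p = u ∨ G.Adj p u) ∧ ∀ w ∈ S, (p = w ∨ G.Adj p w) → w = u := by
  classical
  have h : ¬ IsDominating G (S.erase u) := by
    intro h
    have := hS.le_of_le h (Finset.erase_subset u S) hu
    exact Finset.notMem_erase u S this
  unfold IsDominating at h
  push Not at h
  obtain ⟨p, hp, hp'⟩ := h
  have key : ∀ w ∈ S, G.Adj p w → w = u := by
    intro w hw hpw
    by_contra hne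
    exact hp' w (Finset.mem_erase.mpr ⟨hne, hw⟩) hpw
  by_cases hpu : p = u
  · refine ⟨p, Or.inl hpu, ?_⟩
    rintro w hw (h | h)
    · rw [← h, hpu]
    · exact key w hw h
  · have hpS : p ∉ S := fun h => hp (Finset.mem_erase.mpr ⟨hpu, h⟩)
    obtain ⟨w, hw, hpw⟩ := hS.prop p hpS
    refine ⟨p, Or.inr (by rw [← key w hw hpw]; exact hpw), ?_⟩
    rintro w' hw' (h | h)
    · rw [h] at hpS; exact absurd hw' hpS
    · exact key w' hw' h

/-- a dominating set with private neighbours is minimal -/
theorem minimal_of_priv {W : Type} (G : SimpleGraph W) {S : Finset W}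
    (hS : IsDominating G S)
    (hp : ∀ u ∈ S, ∃ p, (p = u ∨ G.Adj p u) ∧ ∀ w ∈ S, (p = w ∨ G.Adj p w) → w = u) :
    Minimal (IsDominating G) S := by
  refine ⟨hS, ?_⟩
  intro T hT hTS u hu
  obtain ⟨p, _, h2⟩ := hp u hu
  by_cases hpT : p ∈ T
  · rw [← h2 p (hTS hpT) (Or.inl rfl)]
    exact hpT
  · obtain ⟨w, hw, hpw⟩ := hT p hpT
    rw [← h2 w (hTS hw) (Or.inr hpw)]
    exact hw

/-- a minimal dominating set of `X(A, B)` that meets both parts has two elements, and then
`t ≥ 2` -/
theorem mixed_dom {S : Finset ((V × J) × Fin 3)} (hS : Minimal (IsDominating (xGraph A B)) S)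
    {u v : (V × J) × Fin 3} (hu : u ∈ S) (hv : v ∈ S) (hu2 : u.2 ≠ 2) (hv2 : v.2 = 2) :
    S.card ≤ 2 ∧ 2 ≤ Fintype.card V * Fintype.card J := by
  classical
  obtain ⟨p, hp1, hp2⟩ := exists_priv _ hS hu
  obtain ⟨q, hq1, hq2⟩ := exists_priv _ hS hv
  have huv : u ≠ v := by
    rintro rfl
    exact hu2 hv2
  have hpb : p.2 = 2 := by
    by_contra hpa
    exact huv (hp2 v hv (Or.inr (xadj_ab A B hpa hv2))).symm
  have hqa : q.2 ≠ 2 := by
    intro hqb
    exact huv (hq2 u hu (Or.inr (xadj_ba A B hqb hu2)))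
  have hpv : p ≠ v := by
    rintro rfl
    exact huv (hp2 p hv (Or.inl rfl)).symm
  constructor
  · have hsub : S ⊆ {u, v} := by
      intro w hw
      rw [Finset.mem_insert, Finset.mem_singleton]
      by_cases hw2 : w.2 = 2
      · exact Or.inr (hq2 w hw (Or.inr (xadj_ab A B hqa hw2)))
      · exact Or.inl (hp2 w hw (Or.inr (xadj_ba A B hpb hw2)))
    exact (Finset.card_le_card hsub).trans Finset.card_le_two
  · have hne : p.1 ≠ v.1 := by
      intro h
      exact hpv (Prod.ext h (hpb.trans hv2.symm))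
    have : 1 < Fintype.card (V × J) := Fintype.one_lt_card_iff.2 ⟨p.1, v.1, hne⟩
    rw [Fintype.card_prod] at this
    exact this

/-- elements of a minimal dominating set inside the first part, with an `S`-neighbour in another
class -/
theorem class_one_domA {S : Finset ((V × J) × Fin 3)}
    (hS : Minimal (IsDominating (xGraph A B)) S) (hA : ∀ x ∈ S, x.2 ≠ 2)
    (x : (V × J) × Fin 3) (hx : x ∈ S) (y : (V × J) × Fin 3) (hy : y ∈ S)
    (hxy : A.Adj x.1.1 y.1.1) (z : (V × J) × Fin 3) (hz : z ∈ S) (hzx : z.1.1 = x.1.1) :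
    z = x := by
  obtain ⟨p, hp1, hp2⟩ := exists_priv _ hS hx
  refine hp2 z hz ?_
  have hx2 := hA x hx
  have hy2 := hA y hy
  have hz2 := hA z hz
  by_cases hp : p.2 = 2
  · exact Or.inr (xadj_ba A B hp hz2)
  · by_cases hpa : A.Adj p.1.1 x.1.1
    · refine Or.inr ((xadj_aa A B hp hz2).2 (Or.inl ?_))
      rw [hzx]; exact hpa
    · exfalso
      have hpx : p.1.1 = x.1.1 := by
        rcases hp1 with h | h
        · rw [h]
        · rcases (xadj_aa A B hp hx2).1 h with h' | ⟨h', _⟩
          · exact absurd h' hpa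
          · rw [h']
      have := hp2 y hy (Or.inr ((xadj_aa A B hp hy2).2 (Or.inl (by rw [hpx]; exact hxy))))
      rw [this] at hxy
      exact hxy.ne rfl

theorem class_one_domB {S : Finset ((V × J) × Fin 3)}
    (hS : Minimal (IsDominating (xGraph A B)) S) (hB : ∀ x ∈ S, x.2 = 2)
    (x : (V × J) × Fin 3) (hx : x ∈ S) (y : (V × J) × Fin 3) (hy : y ∈ S)
    (hxy : B.Adj x.1.1 y.1.1) (z : (V × J) × Fin 3) (hz : z ∈ S) (hzx : z.1.1 = x.1.1) :
    z = x := by
  obtain ⟨p, hp1, hp2⟩ := exists_priv _ hS hx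
  refine hp2 z hz ?_
  have hx2 := hB x hx
  have hy2 := hB y hy
  have hz2 := hB z hz
  by_cases hp : p.2 = 2
  · by_cases hpa : B.Adj p.1.1 x.1.1
    · refine Or.inr ((xadj_bb A B hp hz2).2 ?_)
      rw [hzx]; exact hpa
    · exfalso
      have hpx : p.1.1 = x.1.1 := by
        rcases hp1 with h | h
        · rw [h]
        · exact absurd ((xadj_bb A B hp hx2).1 h) hpa
      have := hp2 y hy (Or.inr ((xadj_bb A B hp hy2).2 (by rw [hpx]; exact hxy)))
      rw [this] at hxy
      exact hxy.ne rfl
  · exact Or.inr (xadj_ab A B hp hz2)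

/-- a set whose elements have the same class and different second coordinates -/
theorem card_le_J {T : Finset ((V × J) × Fin 3)}
    (h : ∀ x ∈ T, ∀ y ∈ T, x.1.2 = y.1.2 → x = y) : T.card ≤ Fintype.card J := by
  classical
  have : (T.image (fun x => x.1.2)).card = T.card :=
    Finset.card_image_of_injOn (fun x hx y hy hxy => h x hx y hy hxy)
  rw [← this]
  exact Finset.card_le_univ _

/-- upper bound for `Γ(X)` -/
theorem upperDom_x_le (hVJ : Fintype.card V ≤ Fintype.card J) (hAB : B.indepNum ≤ A.indepNum) :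
    upperDom (xGraph (J := J) A B) ≤ Fintype.card J * A.indepNum := by
  classical
  obtain ⟨S, hS, hcard⟩ := exists_upperDom (xGraph (J := J) A B)
  rw [← hcard]
  by_cases hA : ∀ x ∈ S, x.2 ≠ 2
  · -- inside the first part
    refine class_bound A (fun x => x.1.1) S _ hVJ (class_one_domA A B hS hA) ?_
    intro a T hTS hT
    refine card_le_J ?_
    intro x hx y hy hxy
    obtain ⟨p, hp1, hp2⟩ := exists_priv _ hS (hTS hx)
    have h1 : x.1 = y.1 := Prod.ext ((hT x hx).trans (hT y hy).symm) hxy
    refine (hp2 y (hTS hy) ?_).symm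
    have hx2 := hA x (hTS hx)
    have hy2 := hA y (hTS hy)
    by_cases hp : p.2 = 2
    · exact Or.inr (xadj_ba A B hp hy2)
    · rcases hp1 with h | h
      · rw [h]
        by_cases hxy2 : x.2 = y.2
        · exact Or.inl (Prod.ext h1 hxy2)
        · exact Or.inr ((xadj_aa A B hx2 hy2).2 (Or.inr ⟨h1, hxy2⟩))
      · rcases (xadj_aa A B hp hx2).1 h with h' | ⟨h', h''⟩
        · refine Or.inr ((xadj_aa A B hp hy2).2 (Or.inl ?_))
          rw [← h1]; exact h'
        · by_cases hpy : p.2 = y.2
          · exact Or.inl (Prod.ext (h'.trans h1) hpy)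
          · exact Or.inr ((xadj_aa A B hp hy2).2 (Or.inr ⟨h'.trans h1, hpy⟩))
  · push Not at hA
    obtain ⟨v, hv, hv2⟩ := hA
    by_cases hB : ∀ x ∈ S, x.2 = 2
    · refine (class_bound B (fun x => x.1.1) S _ hVJ (class_one_domB A B hS hB) ?_).trans
        (Nat.mul_le_mul_left _ hAB)
      intro a T hTS hT
      refine card_le_J ?_
      intro x hx y hy hxy
      exact Prod.ext (Prod.ext ((hT x hx).trans (hT y hy).symm) hxy)
        ((hB x (hTS hx)).trans (hB y (hTS hy)).symm)
    · push Not at hB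
      obtain ⟨u, hu, hu2⟩ := hB
      obtain ⟨h1, h2⟩ := mixed_dom A B hS hu hv hu2 hv2
      have : Nonempty V := ⟨v.1.1⟩
      have hJ : 2 ≤ Fintype.card J := by
        by_contra hJ
        push Not at hJ
        have : Fintype.card V ≤ 1 := by omega
        have := Nat.mul_le_mul this (Nat.le_of_lt_succ hJ)
        omega
      have := Nat.mul_le_mul hJ (indepNum_pos A)
      omega

/-- lower bound for `im(X)` -/
theorem le_im_x : Fintype.card J * A.indepNum ≤ inducedMatchingNum (xGraph (J := J) A B) := by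
  classical
  obtain ⟨I, hI, hIc⟩ := exists_indep_card A
  refine card_le_inducedMatchingNum _
    (S := (I ×ˢ (Finset.univ : Finset J)) ×ˢ ({0, 1} : Finset (Fin 3))) ?_ ?_
  · intro x hx
    simp only [Finset.mem_product, Finset.mem_univ, and_true, Finset.mem_insert,
      Finset.mem_singleton] at hx
    obtain ⟨hxI, hx2⟩ := hx
    have hx2' : x.2 ≠ 2 := by rcases hx2 with h | h <;> rw [h] <;> decide
    refine ⟨(x.1, if x.2 = 0 then 1 else 0), ⟨?_, ?_⟩, ?_⟩
    · simp only [Finset.mem_product, Finset.mem_univ, and_true, Finset.mem_insert,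
        Finset.mem_singleton]
      refine ⟨hxI, ?_⟩
      split_ifs <;> simp
    · refine (xadj_aa A B hx2' ?_).2 (Or.inr ⟨rfl, ?_⟩)
      · split_ifs <;> simp
      · rcases hx2 with h | h <;> rw [h] <;> simp
    · rintro y ⟨hy, hxy⟩
      simp only [Finset.mem_product, Finset.mem_univ, and_true, Finset.mem_insert,
        Finset.mem_singleton] at hy
      obtain ⟨hyI, hy2⟩ := hy
      have hy2' : y.2 ≠ 2 := by rcases hy2 with h | h <;> rw [h] <;> decide
      rcases (xadj_aa A B hx2' hy2').1 hxy with h | ⟨h, h'⟩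
      · exact absurd h (hI _ hxI _ hyI)
      · refine Prod.ext h.symm ?_
        rcases hx2 with e | e <;> rcases hy2 with e' | e' <;> rw [e, e'] at h' ⊢ <;>
          first | exact absurd rfl h' | simp
  · rw [Finset.card_product, Finset.card_product, hIc, Finset.card_univ]
    rw [Finset.card_pair (by decide)]
    ring

/-- lower bound for `Γ(X)` -/
theorem le_upperDom_x : Fintype.card J * B.indepNum ≤ upperDom (xGraph (J := J) A B) := by
  classical
  obtain ⟨I, hI, hIc⟩ := exists_indep_card B
  have := indep_card_le (xGraph (J := J) A B)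
    ((I ×ˢ (Finset.univ : Finset J)) ×ˢ ({2} : Finset (Fin 3))) (by
      intro x hx y hy
      simp only [Finset.mem_product, Finset.mem_univ, and_true, Finset.mem_singleton] at hx hy
      rw [xadj_bb A B hx.2 hy.2]
      exact hI _ hx.1 _ hy.1)
  rw [Finset.card_product, Finset.card_product, hIc, Finset.card_univ,
    Finset.card_singleton] at this
  calc Fintype.card J * B.indepNum = B.indepNum * Fintype.card J * 1 := by ring
    _ ≤ _ := this

/-- upper bound for `im(X)` when `α(A) < α(B)` -/
theorem im_x_lt (hVJ : Fintype.card V ≤ Fintype.card J) (hAB : A.indepNum < B.indepNum) :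
    inducedMatchingNum (xGraph (J := J) A B) < Fintype.card J * B.indepNum := by
  classical
  obtain ⟨S, hS, hcard⟩ := exists_inducedMatchingNum (xGraph (J := J) A B)
  have hne : Nonempty V := by
    by_contra hcon
    rw [not_nonempty_iff] at hcon
    obtain ⟨I, _, hIc⟩ := exists_indep_card B
    have : I.card = 0 := by
      rw [Finset.card_eq_zero, Finset.eq_empty_iff_forall_notMem]
      intro x _
      exact hcon.elim x
    omega
  have hV : 1 ≤ Fintype.card V := Fintype.card_pos
  have hJ : 1 ≤ Fintype.card J := hV.trans hVJ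
  have hA1 := indepNum_pos A
  by_cases hA : ∀ x ∈ S, x.2 ≠ 2
  · have h := class_bound A (fun x => x.1.1) S (2 * Fintype.card J) (by omega) (by
      intro x hx y hy hxy z hz hzx
      have hx2 := hA x hx
      have hy2 := hA y hy
      have hz2 := hA z hz
      obtain ⟨w, _, hw⟩ := hS y hy
      have e1 := hw x ⟨hx, (xadj_aa A B hy2 hx2).2 (Or.inl hxy.symm)⟩
      have e2 := hw z ⟨hz, (xadj_aa A B hy2 hz2).2 (Or.inl (by rw [hzx]; exact hxy.symm))⟩
      rw [e1, e2]) (by
      intro a T hTS hT
      have h1 : (T.image (fun x => (x.1.2, x.2))).card = T.card := by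
        refine Finset.card_image_of_injOn ?_
        intro x hx y hy hxy
        simp only [Prod.mk.injEq] at hxy
        exact Prod.ext (Prod.ext ((hT x hx).trans (hT y hy).symm) hxy.1) hxy.2
      rw [← h1]
      have h2 : T.image (fun x => (x.1.2, x.2)) ⊆ (Finset.univ : Finset J) ×ˢ
          ({0, 1} : Finset (Fin 3)) := by
        intro z hz
        obtain ⟨x, hx, rfl⟩ := Finset.mem_image.1 hz
        have hx2 := hA x (hTS hx)
        rw [Finset.mem_product]
        refine ⟨Finset.mem_univ _, ?_⟩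
        simp only [Finset.mem_insert, Finset.mem_singleton]
        rcases x with ⟨⟨a, b⟩, c⟩
        fin_cases c
        · exact Or.inl rfl
        · exact Or.inr rfl
        · exact absurd rfl hx2
      refine (Finset.card_le_card h2).trans ?_
      rw [Finset.card_product, Finset.card_univ, Finset.card_pair (by decide)]
      omega)
    have h3 : inducedMatchingNum (xGraph (J := J) A B) ≤ Fintype.card J * A.indepNum := by
      have h4 : 2 * inducedMatchingNum (xGraph (J := J) A B) ≤
          2 * (Fintype.card J * A.indepNum) := by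
        rw [← hcard]; linarith
      omega
    exact h3.trans_lt (Nat.mul_lt_mul_of_pos_left hAB hJ)
  · push Not at hA
    obtain ⟨v, hv, hv2⟩ := hA
    by_cases hB : ∀ x ∈ S, x.2 = 2
    · have hone : ∀ x ∈ S, ∀ y ∈ S, x.1.1 = y.1.1 → x = y := by
        intro x hx y hy hxy
        obtain ⟨w, ⟨hw1, hw2⟩, _⟩ := hS x hx
        obtain ⟨z, _, hz⟩ := hS w hw1
        have hwx := (xadj_bb A B (hB x hx) (hB w hw1)).1 hw2
        have e1 := hz x ⟨hx, hw2.symm⟩
        have e2 := hz y ⟨hy, ((xadj_bb A B (hB w hw1) (hB y hy)).2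
          (by rw [← hxy]; exact hwx.symm))⟩
        rw [e1, e2]
      have h1 : (S.image (fun x => x.1.1)).card = S.card :=
        Finset.card_image_of_injOn (fun x hx y hy hxy => hone x hx y hy hxy)
      have h2 : S.card ≤ Fintype.card V := by
        rw [← h1]
        exact Finset.card_le_univ _
      have h3 : Fintype.card J * 1 ≤ Fintype.card J * B.indepNum :=
        Nat.mul_le_mul_left _ (by omega)
      omega
    · push Not at hB
      obtain ⟨u, hu, hu2⟩ := hB
      have hsub : S ⊆ {u, v} := by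
        intro w hw
        rw [Finset.mem_insert, Finset.mem_singleton]
        by_cases hw2 : w.2 = 2
        · right
          obtain ⟨z, _, hz⟩ := hS u hu
          rw [hz w ⟨hw, xadj_ab A B hu2 hw2⟩, hz v ⟨hv, xadj_ab A B hu2 hv2⟩]
        · left
          obtain ⟨z, _, hz⟩ := hS v hv
          rw [hz w ⟨hw, xadj_ba A B hv2 hw2⟩, hz u ⟨hu, xadj_ba A B hv2 hu2⟩]
      have h1 := (Finset.card_le_card hsub).trans Finset.card_le_two
      have h2 : 1 * 2 ≤ Fintype.card J * B.indepNum := Nat.mul_le_mul hJ (by omega)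
      omega

/-- `im(X(A, B)) = Γ(X(A, B))` if and only if `α(B) ≤ α(A)` -/
theorem x_iff (hVJ : Fintype.card V ≤ Fintype.card J) :
    inducedMatchingNum (xGraph (J := J) A B) = upperDom (xGraph (J := J) A B) ↔
      B.indepNum ≤ A.indepNum := by
  constructor
  · intro h
    by_contra hcon
    push Not at hcon
    have h1 := im_x_lt (J := J) A B hVJ hcon
    have h2 := le_upperDom_x (J := J) A B
    omega
  · intro h
    exact le_antisymm (inducedMatchingNum_le _) ((upperDom_x_le A B hVJ h).trans (le_im_x A B))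

/-- `Γ_t(X(A, B)) = 2 Γ(X(A, B))` if and only if `α(B) ≤ α(A)` -/
theorem extremal_x_iff (hVJ : Fintype.card V ≤ Fintype.card J) :
    upperTotalDom (xGraph (J := J) A B) = 2 * upperDom (xGraph (J := J) A B) ↔
      B.indepNum ≤ A.indepNum := by
  classical
  rw [characterization _ (x_noiso A B), x_iff A B hVJ]

end

end Pool.Agent.Lib.P5135r
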