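import Pool.Agent.Lib.P2ba8ab.Poly
import Pool.Agent.Lib.P5135a5.Defs

set_option autoImplicit false
set_option linter.unusedSectionVars false

/-!
Pairs of graphs, the class of extremal graphs, and polynomial-time reducibility.
-/

namespace Pool.Agent.Lib.P5135r

open Pool.Agent.Lib.P2ba8ab Pool.Agent.Lib.P5135a5

/-- Pairs of finite simple graphs with the same vertex set `Fin n`. -/
structure Gr2 where
  /-- number of vertices -/
  n : ℕ
  /-- the first graph -/
  A : SimpleGraph (Fin n)
  /-- the second graph -/
  B : SimpleGraph (Fin n)

open Classical in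
/-- The rows of the adjacency matrix of a graph, one after the other. -/
noncomputable def rows {n : ℕ} (G : SimpleGraph (Fin n)) : List Bool :=
  (List.ofFn fun i : Fin n => List.ofFn fun j : Fin n => decide (G.Adj i j)).flatten

/-- The bit string of a pair of graphs: the number `n` of vertices in unary, a `0`, and the rows
of the two adjacency matrices. -/
noncomputable def Gr2.encode (g : Gr2) : List Bool :=
  List.replicate g.n true ++ false :: (rows g.A ++ rows g.B)

/-- `G` is a graph without isolated vertices with `Γ_t(G) = 2 Γ(G)`. -/
def Extremal (g : Gr) : Prop :=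
  (∀ v, ∃ w, g.G.Adj v w) ∧ upperTotalDom g.G = 2 * upperDom g.G

/-- Polynomial-time many-one reducibility, computed by a Turing machine on bit strings. -/
def Reduces {α β : Type} (encα : α → List Bool) (encβ : β → List Bool) (P : α → Prop)
    (Q : β → Prop) : Prop :=
  ∃ f : α → β, Nonempty (Turing.TM2ComputableInPolyTime encα encβ f) ∧ ∀ a, P a ↔ Q (f a)

end Pool.Agent.Lib.P5135r
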