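import Pool.Agent.Lib.P5135r.Defs

set_option autoImplicit false
set_option linter.unusedSectionVars false

/-!
Pairs of graphs on the same vertex set as inputs and outputs of polynomial-time functions.
-/

namespace Pool.Agent.Lib.P5135r

open Pool.Agent.Lib.PolyTime Pool.Agent.Lib.Pa7c826 Pool.Agent.Lib.P2ba8ab

/-- the first graph -/
def Gr2.fst (g : Gr2) : Gr := ⟨g.n, g.A⟩

/-- the second graph -/
def Gr2.snd (g : Gr2) : Gr := ⟨g.n, g.B⟩

theorem rows_eq (g : Gr) : rows g.G =
    (List.range (g.n * g.n)).map (fun k => adjN g (k / g.n) (k % g.n)) := by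
  classical
  have h : (List.ofFn fun i : Fin g.n => List.ofFn fun j : Fin g.n => decide (g.G.Adj i j)) =
      List.ofFn fun i : Fin g.n => List.ofFn fun j : Fin g.n => adjN g i j := by
    congr 1
    funext i
    congr 1
    funext j
    simp [adjN]
  rw [← flatten_ofFn, ← h]
  rfl

theorem encode2_eq (g : Gr2) : g.encode = un g.n ++ false ::
    ((List.range (g.n * g.n)).map (fun k => adjN g.fst (k / g.n) (k % g.n)) ++
      (List.range (g.n * g.n)).map (fun k => adjN g.snd (k / g.n) (k % g.n))) := by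
  unfold Gr2.encode
  rw [show rows g.A = rows g.fst.G from rfl, show rows g.B = rows g.snd.G from rfl, rows_eq,
    rows_eq]
  rfl

/-! ### reading -/

section

variable {α : Type} {D : α → Prop} {ctx : List (α → List Bool)}

/-- the graph `g a` is available -/
def Rd (D : α → Prop) (ctx : List (α → List Bool)) (g : α → Gr) : Prop :=
  ∃ (r : α → List Bool) (o : α → ℕ), PolyN D ctx (fun a => (g a).n) ∧ PolyC D ctx r ∧
    PolyN D ctx o ∧ ∀ a, D a → ∀ x y, x < (g a).n → y < (g a).n →
      (r a).getD (o a + (x * (g a).n + y)) false = adjN (g a) x y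

theorem Rd.n {g : α → Gr} (h : Rd D ctx g) : PolyN D ctx (fun a => (g a).n) := by
  obtain ⟨r, o, hn, _⟩ := h
  exact hn

theorem Rd.adj {g : α → Gr} (h : Rd D ctx g) {u v : α → ℕ} (hu : PolyN D ctx u)
    (hv : PolyN D ctx v) : PolyB D ctx (fun a => adjN (g a) (u a) (v a)) := by
  obtain ⟨r, o, hn, hr, ho, h⟩ := h
  have hb : PolyB D ctx (fun a => (decide (u a < (g a).n) && decide (v a < (g a).n)) &&
      (r a).getD (o a + (u a * (g a).n + v a)) false) :=
    ((PolyB.lt hu hn).and (PolyB.lt hv hn)).and (PolyB.getD hr (ho.add ((hu.mul hn).add hv)))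
  refine hb.congr (fun a ha => ?_)
  by_cases h1 : u a < (g a).n
  · by_cases h2 : v a < (g a).n
    · rw [h a ha _ _ h1 h2]
      simp [h1, h2]
    · simp [h2, adjN]
  · simp [h1, adjN]

theorem Rd.up {g : α → Gr} {n : α → ℕ} (h : Rd D ctx g) :
    Rd (fun p : α × ℕ => D p.1 ∧ p.2 < n p.1) (PolyTime.lift ctx ++ [fun p => un p.2])
      (fun p => g p.1) := by
  obtain ⟨r, o, hn, hr, ho, h⟩ := h
  exact ⟨fun p => r p.1, fun p => o p.1, upN hn, Pool.Agent.Lib.Pa7c826.up hr, upN ho,
    fun p hp => h p.1 hp.1⟩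

theorem rd_gr {D : Gr → Prop} : Rd D [Gr.encode] (fun g => g) := by
  refine ⟨_, fun _ => 0, poly_n, poly_rest, PolyN.const 0, ?_⟩
  intro g _ x y _ hy
  rw [Nat.zero_add]
  exact adjN_getD g x y hy

theorem poly2_n {D : Gr2 → Prop} : PolyN D [Gr2.encode] (fun g => g.n) := by
  have h : PolyC D [Gr2.encode] Gr2.encode := PolyC.var (by simp)
  refine (PolyN.length h.takeTrue).congr (fun g _ => ?_)
  rw [encode2_eq, takeWhile_un, un_length]

theorem poly2_rest {D : Gr2 → Prop} : PolyC D [Gr2.encode]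
    (fun g => (List.range (g.n * g.n)).map (fun k => adjN g.fst (k / g.n) (k % g.n)) ++
      (List.range (g.n * g.n)).map (fun k => adjN g.snd (k / g.n) (k % g.n))) := by
  have h : PolyC D [Gr2.encode] Gr2.encode := PolyC.var (by simp)
  refine h.afterTrue.congr (fun g _ => ?_)
  rw [encode2_eq, afterTrue_un]

theorem rd_fst {D : Gr2 → Prop} : Rd D [Gr2.encode] (fun g => g.fst) := by
  refine ⟨_, fun _ => 0, poly2_n, poly2_rest, PolyN.const 0, ?_⟩
  intro g _ x y hx hy
  have hx' : x < g.n := hx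
  have hy' : y < g.n := hy
  have h1 : x * g.n + y < g.n * g.n := by nlinarith
  rw [Nat.zero_add, List.getD_append]
  · exact adjN_getD g.fst x y hy
  · rw [List.length_map, List.length_range]
    exact h1

theorem rd_snd {D : Gr2 → Prop} : Rd D [Gr2.encode] (fun g => g.snd) := by
  refine ⟨_, fun g => g.n * g.n, poly2_n, poly2_rest, poly2_n.mul poly2_n, ?_⟩
  intro g _ x y hx hy
  rw [List.getD_append_right]
  · have e : g.n * g.n + (x * g.snd.n + y) - ((List.range (g.n * g.n)).map
        (fun k => adjN g.fst (k / g.n) (k % g.n))).length = x * g.snd.n + y := by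
      rw [List.length_map, List.length_range, Nat.add_sub_cancel_left]
    rw [e]
    exact adjN_getD g.snd x y hy
  · rw [List.length_map, List.length_range]
    exact Nat.le_add_right _ _

/-! ### writing -/

/-- the graph on `Fin N` whose edges are given by a Boolean function of two numbers -/
def grOf (N : ℕ) (F : ℕ → ℕ → Bool) : Gr where
  n := N
  G :=
    { Adj := fun i j => i ≠ j ∧ (F i j = true ∨ F j i = true)
      symm := ⟨fun _ _ h => ⟨h.1.symm, h.2.symm⟩⟩
      loopless := ⟨fun _ h => h.1 rfl⟩ }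

theorem adjN_grOf (N : ℕ) (F : ℕ → ℕ → Bool) (x y : ℕ) : adjN (grOf N F) x y =
    ((decide (x < N) && decide (y < N)) && (!decide (x = y) && (F x y || F y x))) := by
  classical
  unfold adjN
  by_cases h1 : x < N
  · by_cases h2 : y < N
    · rw [dif_pos ⟨h1, h2⟩, Bool.eq_iff_iff]
      refine Iff.trans decide_eq_true_iff ?_
      change ((⟨x, h1⟩ : Fin N) ≠ ⟨y, h2⟩ ∧ (F x y = true ∨ F y x = true)) ↔ _
      rw [ne_eq, Fin.mk.injEq]
      simp [h1, h2]
    · rw [dif_neg (fun h => h2 h.2)]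
      simp [h2]
  · rw [dif_neg (fun h => h1 h.1)]
    simp [h1]

/-- The rows of a graph given by a polynomial-time adjacency function. -/
theorem poly_rows {N : α → ℕ} {F : α → ℕ → ℕ → Bool} (hN : PolyN D ctx N)
    (hF : ∀ u v : α × ℕ → ℕ,
      PolyN (fun p : α × ℕ => D p.1 ∧ p.2 < N p.1 * N p.1)
        (PolyTime.lift ctx ++ [fun p => un p.2]) u →
      PolyN (fun p : α × ℕ => D p.1 ∧ p.2 < N p.1 * N p.1)
        (PolyTime.lift ctx ++ [fun p => un p.2]) v →
      PolyB (fun p : α × ℕ => D p.1 ∧ p.2 < N p.1 * N p.1)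
        (PolyTime.lift ctx ++ [fun p => un p.2]) (fun p => F p.1 (u p) (v p))) :
    PolyC D ctx (fun a => rows (grOf (N a) (F a)).G) := by
  have hNN := hN.mul hN
  have hu := upN (n := fun a => N a * N a) hN
  have hL := last (D := D) (ctx := ctx) (n := fun a => N a * N a)
  have h1 := nDiv' hL hu
  have h2 := nMod' hL hu
  have h3 : PolyB (fun p : α × ℕ => D p.1 ∧ p.2 < N p.1 * N p.1)
      (PolyTime.lift ctx ++ [fun p => un p.2])
      (fun p => adjN (grOf (N p.1) (F p.1)) (p.2 / N p.1) (p.2 % N p.1)) := by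
    refine (((PolyB.lt h1 hu).and (PolyB.lt h2 hu)).and
      ((PolyB.natEq h1 h2).not.and ((hF _ _ h1 h2).or (hF _ _ h2 h1)))).congr (fun p _ => ?_)
    rw [adjN_grOf]
  refine (PolyC.map_range hNN h3).congr (fun a _ => ?_)
  rw [rows_eq]
  rfl

theorem poly_gr {N : α → ℕ} {F : α → ℕ → ℕ → Bool} (hN : PolyN D ctx N)
    (hF : PolyC D ctx (fun a => rows (grOf (N a) (F a)).G)) :
    PolyC D ctx (fun a => (grOf (N a) (F a)).encode) :=
  (PolyC.append hN (PolyC.cons false hF)).congr (fun _ _ => rfl)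

/-- a pair of graphs given by Boolean functions -/
def gr2Of (N : ℕ) (F F' : ℕ → ℕ → Bool) : Gr2 := ⟨N, (grOf N F).G, (grOf N F').G⟩

theorem poly_gr2 {N : α → ℕ} {F F' : α → ℕ → ℕ → Bool} (hN : PolyN D ctx N)
    (hF : PolyC D ctx (fun a => rows (grOf (N a) (F a)).G))
    (hF' : PolyC D ctx (fun a => rows (grOf (N a) (F' a)).G)) :
    PolyC D ctx (fun a => (gr2Of (N a) (F a) (F' a)).encode) :=
  (PolyC.append hN (PolyC.cons false (PolyC.append hF hF'))).congr (fun _ _ => rfl)

/-- an isomorphism onto a graph given by a Boolean function -/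
def isoOf {T : Type} {N : ℕ} (e : T ≃ Fin N) (F : ℕ → ℕ → Bool) (K : SimpleGraph T)
    (h : ∀ x y, x ≠ y → (F (e x) (e y) = true ↔ K.Adj x y)) : K ≃g (grOf N F).G where
  toEquiv := e
  map_rel_iff' := by
    intro x y
    change (e x ≠ e y ∧ (F (e x) (e y) = true ∨ F (e y) (e x) = true)) ↔ K.Adj x y
    constructor
    · rintro ⟨h1, h2⟩
      have hxy : x ≠ y := fun h' => h1 (by rw [h'])
      rcases h2 with h2 | h2
      · exact (h x y hxy).1 h2
      · exact ((h y x (Ne.symm hxy)).1 h2).symm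
    · intro h1
      refine ⟨fun h' => h1.ne (e.injective h'), Or.inl ((h x y h1.ne).2 h1)⟩

end

/-! ### digits -/

theorem dg_div {b k : ℕ} (a : ℕ) (h : b < k) : (b + k * a) / k = a := by
  rw [Nat.add_mul_div_left _ _ (by omega), Nat.div_eq_of_lt h, Nat.zero_add]

theorem dg_mod {b k : ℕ} (a : ℕ) (h : b < k) : (b + k * a) % k = b := by
  rw [Nat.add_mul_mod_self_left, Nat.mod_eq_of_lt h]

end Pool.Agent.Lib.P5135r
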